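import Mathlib

section
/-!
# Two preimages near a multiple zero
-/
set_option autoImplicit false

open Complex Metric Set Filter Topology

namespace Pool.Agent.Lib.MP4cd976.HL

/-- Near a multiple zero of `F`, a function `G` with `G' = P F'`, `P a = 1`, is close to `F`. -/
theorem close_of_order {F G P : ℂ → ℂ} {a : ℂ} {k : ℕ} (hk : 2 ≤ k) {g : ℂ → ℂ}
    (hg : AnalyticAt ℂ g a) (hga : g a ≠ 0)
    (hFg : ∀ᶠ z in 𝓝 a, F z = (z - a) ^ k * g z)
    (hG : ∀ᶠ z in 𝓝 a, HasDerivAt G (P z * deriv F z) z)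
    (hFd : ∀ᶠ z in 𝓝 a, HasDerivAt F (deriv F z) z)
    (hP : ContinuousAt P a) (hPa : P a = 1) (hGa : G a = 0) (hFa : F a = 0) :
    ∀ᶠ z in 𝓝 a, ‖G z - F z‖ ≤ 1 / 4 * ‖F z‖ := by
  obtain ⟨m, rfl⟩ : ∃ m, k = m + 1 := ⟨k - 1, by omega⟩
  set γ : ℝ := ‖g a‖ with hγ
  have hγ0 : 0 < γ := norm_pos_iff.mpr hga
  set B : ℝ := (m + 1) * (2 * γ) + (‖deriv g a‖ + 1) with hB
  have hB0 : 0 < B := by positivity
  have hgc : ContinuousAt g a := hg.continuousAt
  have hgd : ContinuousAt (deriv g) a := hg.deriv.continuousAt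
  have h1 : ∀ᶠ z in 𝓝 a, ‖g z‖ < 2 * γ :=
    hgc.norm.eventually (gt_mem_nhds (by linarith))
  have h2 : ∀ᶠ z in 𝓝 a, γ / 2 < ‖g z‖ :=
    hgc.norm.eventually (lt_mem_nhds (by linarith))
  have h3 : ∀ᶠ z in 𝓝 a, ‖deriv g z‖ < ‖deriv g a‖ + 1 :=
    hgd.norm.eventually (gt_mem_nhds (by linarith))
  have h4 : ∀ᶠ z in 𝓝 a, ‖P z - 1‖ < γ / (8 * B) := by
    have : ContinuousAt (fun z => ‖P z - 1‖) a := (hP.sub continuousAt_const).norm
    refine this.eventually (gt_mem_nhds ?_)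
    simp only [hPa, sub_self, norm_zero]
    positivity
  have h5 : ∀ᶠ z in 𝓝 a, ‖z - a‖ < 1 := by
    have : ContinuousAt (fun z => ‖z - a‖) a := (continuousAt_id.sub continuousAt_const).norm
    refine this.eventually (gt_mem_nhds ?_)
    simp
  have h6 : ∀ᶠ z in 𝓝 a, ∀ᶠ y in 𝓝 z, F y = (y - a) ^ (m + 1) * g y := hFg.eventually_nhds
  have h7 : ∀ᶠ z in 𝓝 a, AnalyticAt ℂ g z := hg.eventually_analyticAt
  have hall := h1.and (h2.and (h3.and (h4.and (h5.and (h6.and (h7.and (hG.and hFd)))))))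
  obtain ⟨r, hr, hball⟩ := Metric.eventually_nhds_iff_ball.mp hall
  refine Metric.eventually_nhds_iff_ball.mpr ⟨r, hr, ?_⟩
  intro z hz
  have hda : ∀ y ∈ ball a r, ‖(P y - 1) * deriv F y‖ ≤ γ / 8 * ‖y - a‖ ^ m := by
    intro y hy
    obtain ⟨e1, e2, e3, e4, e5, e6, e7, e8, e9⟩ := hball y hy
    have hd : deriv F y = (y - a) ^ m * ((m + 1) * g y + (y - a) * deriv g y) := by
      have e : deriv F y = deriv (fun y => (y - a) ^ (m + 1) * g y) y :=
        Filter.EventuallyEq.deriv_eq e6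
      rw [e]
      have e10 : HasDerivAt (fun y : ℂ => (y - a) ^ (m + 1) * g y)
          (((m + 1 : ℕ) : ℂ) * (y - a) ^ m * 1 * g y + (y - a) ^ (m + 1) * deriv g y) y := by
        have e11 : HasDerivAt (fun y : ℂ => (y - a) ^ (m + 1)) (((m + 1 : ℕ) : ℂ) * (y - a) ^ m * 1) y := by
          have := ((hasDerivAt_id y).sub_const a).fun_pow (m + 1)
          simpa using this
        exact e11.fun_mul e7.differentiableAt.hasDerivAt
      rw [e10.deriv]
      push_cast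
      ring
    rw [norm_mul, hd, norm_mul, norm_pow]
    have e12 : ‖(m + 1 : ℂ) * g y + (y - a) * deriv g y‖ ≤ B := by
      refine (norm_add_le _ _).trans ?_
      rw [norm_mul, norm_mul]
      have e13 : ‖(m + 1 : ℂ)‖ = m + 1 := by
        rw [show (m + 1 : ℂ) = ((m + 1 : ℕ) : ℂ) by push_cast; ring, Complex.norm_natCast]
        push_cast; ring
      rw [e13, hB]
      have e14 : ‖y - a‖ * ‖deriv g y‖ ≤ 1 * (‖deriv g a‖ + 1) :=
        mul_le_mul e5.le e3.le (norm_nonneg _) zero_le_one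
      have e15 : ((m : ℝ) + 1) * ‖g y‖ ≤ (m + 1) * (2 * γ) :=
        mul_le_mul_of_nonneg_left e1.le (by positivity)
      linarith
    calc ‖P y - 1‖ * (‖y - a‖ ^ m * ‖(m + 1 : ℂ) * g y + (y - a) * deriv g y‖)
        ≤ γ / (8 * B) * (‖y - a‖ ^ m * B) := by
          apply mul_le_mul e4.le _ (by positivity) (by positivity)
          exact mul_le_mul_of_nonneg_left e12 (by positivity)
      _ = γ / 8 * ‖y - a‖ ^ m := by field_simp
  -- mean value inequality on the closed ball of radius |z - a|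
  have hsub : closedBall a ‖z - a‖ ⊆ ball a r := by
    intro y hy
    rw [mem_ball, dist_eq_norm] at hz ⊢
    rw [mem_closedBall, dist_eq_norm] at hy
    linarith
  have hMV : ‖(G z - F z) - (G a - F a)‖ ≤ (γ / 8 * ‖z - a‖ ^ m) * ‖z - a‖ := by
    refine (convex_closedBall a ‖z - a‖).norm_image_sub_le_of_norm_hasDerivWithin_le
      (f := fun y => G y - F y) (f' := fun y => (P y - 1) * deriv F y) ?_ ?_ ?_ ?_
    · intro y hy
      obtain ⟨-, -, -, -, -, -, -, e8, e9⟩ := hball y (hsub hy)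
      exact ((e8.fun_sub e9).congr_deriv (by ring)).hasDerivWithinAt
    · intro y hy
      refine (hda y (hsub hy)).trans ?_
      have : ‖y - a‖ ≤ ‖z - a‖ := by
        rw [mem_closedBall, dist_eq_norm] at hy
        exact hy
      gcongr
    · exact mem_closedBall_self (norm_nonneg _)
    · rw [mem_closedBall, dist_eq_norm]
  rw [hGa, hFa, sub_zero, sub_zero] at hMV
  obtain ⟨-, e2, -, -, -, e6, -, -, -⟩ := hball z hz
  have e7 : F z = (z - a) ^ (m + 1) * g z := e6.self_of_nhds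
  refine hMV.trans ?_
  rw [e7, norm_mul, norm_pow, mul_assoc, ← pow_succ]
  have : 0 ≤ ‖z - a‖ ^ (m + 1) := by positivity
  nlinarith

/-- Near a multiple zero of `F` every small level `e > 0` contains two distinct points at which
`Re G = 0`. -/
theorem two_points {F G P : ℂ → ℂ} {a : ℂ} (hF : AnalyticAt ℂ F a)
    (hG : ∀ᶠ z in 𝓝 a, HasDerivAt G (P z * deriv F z) z)
    (hP : ContinuousAt P a) (hPa : P a = 1) (hFa : F a = 0) (hFa' : deriv F a = 0) (hGa : G a = 0)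
    (hne : ¬ ∀ᶠ z in 𝓝 a, F z = 0) {U : Set ℂ} (hU : U ∈ 𝓝 a) :
    ∃ ε > 0, ∀ e : ℝ, 0 < e → e < ε → ∃ q₁ ∈ U, ∃ q₂ ∈ U, q₁ ≠ q₂ ∧
      (F q₁).im = e ∧ (F q₂).im = e ∧ (G q₁).re = 0 ∧ (G q₂).re = 0 := by
  obtain ⟨k, g, hg, hga, hFg⟩ : ∃ (k : ℕ) (g : ℂ → ℂ), AnalyticAt ℂ g a ∧ g a ≠ 0 ∧
      ∀ᶠ z in 𝓝 a, F z = (z - a) ^ k • g z := by
    rw [hF.exists_eventuallyEq_pow_smul_nonzero_iff]
    exact hne
  simp only [smul_eq_mul] at hFg
  have hk : 2 ≤ k := by
    by_contra hcon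
    have hk' : k = 0 ∨ k = 1 := by omega
    rcases hk' with rfl | rfl
    · have := hFg.self_of_nhds
      rw [hFa] at this
      simp at this
      exact hga this.symm
    · have e1 : deriv F a = deriv (fun z => (z - a) ^ 1 * g z) a := Filter.EventuallyEq.deriv_eq hFg
      have e2 : HasDerivAt (fun z => (z - a) ^ 1 * g z) (g a) a := by
        have e3 : HasDerivAt (fun z : ℂ => (z - a) ^ 1) 1 a := by
          simpa using (hasDerivAt_id a).sub_const a
        have e4 := e3.fun_mul hg.differentiableAt.hasDerivAt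
        refine e4.congr_deriv ?_
        simp
      rw [hFa', e2.deriv] at e1
      exact hga e1.symm
  have hk0 : (k : ℂ) ≠ 0 := by
    have : k ≠ 0 := by omega
    exact_mod_cast this
  have hkn : k ≠ 0 := by omega
  have hFd : ∀ᶠ z in 𝓝 a, HasDerivAt F (deriv F z) z := by
    filter_upwards [hF.eventually_analyticAt] with z hz
    exact hz.differentiableAt.hasDerivAt
  have hclose := close_of_order hk hg hga hFg hG hFd hP hPa hGa hFa
  -- the root
  obtain ⟨α, hα⟩ := IsAlgClosed.exists_pow_nat_eq (g a) (by omega : 0 < k)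
  have hα0 : α ≠ 0 := by
    rintro rfl
    rw [zero_pow hkn] at hα
    exact hga hα.symm
  set χ : ℂ → ℂ := fun z => (z - a) * (α * exp (log (g z / g a) / k)) with hχ
  have hquot : AnalyticAt ℂ (fun z => g z / g a) a := hg.div analyticAt_const hga
  have hlog : AnalyticAt ℂ (fun z => log (g z / g a)) a := by
    refine hquot.clog ?_
    rw [div_self hga]
    exact one_mem_slitPlane
  have hχan : AnalyticAt ℂ χ a := by
    have e1 : AnalyticAt ℂ (fun z => exp (log (g z / g a) / k)) a :=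
      (hlog.div analyticAt_const hk0).cexp
    exact (analyticAt_id.sub analyticAt_const).mul (analyticAt_const.mul e1)
  have hχa : χ a = 0 := by simp [hχ]
  have hχd : HasDerivAt χ α a := by
    have e1 : AnalyticAt ℂ (fun z => α * exp (log (g z / g a) / k)) a :=
      analyticAt_const.mul (hlog.div analyticAt_const hk0).cexp
    have e2 := ((hasDerivAt_id a).sub_const a).fun_mul e1.differentiableAt.hasDerivAt
    refine e2.congr_deriv ?_
    simp [div_self hga]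
  have hχs : HasStrictDerivAt χ α a := by
    have := hχan.hasStrictDerivAt
    rwa [hχd.deriv] at this
  have hpow : ∀ᶠ z in 𝓝 a, χ z ^ k = F z := by
    have e1 : ∀ᶠ z in 𝓝 a, g z / g a ≠ 0 := by
      refine hquot.continuousAt.eventually_ne ?_
      rw [div_self hga]
      exact one_ne_zero
    filter_upwards [hFg, e1] with z hz hz1
    rw [hz, hχ]
    simp only
    rw [mul_pow, mul_pow, hα, ← Complex.exp_nat_mul, mul_div_cancel₀ _ hk0, Complex.exp_log hz1,
      mul_div_cancel₀ _ hga]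
  have hGd : ∀ᶠ z in 𝓝 a, ContinuousAt G z := hG.mono fun z hz => hz.continuousAt
  have hgood := hclose.and (hpow.and (hGd.and (hU : ∀ᶠ z in 𝓝 a, z ∈ U)))
  obtain ⟨V, hVsub', hVo, haV⟩ := _root_.eventually_nhds_iff.mp hgood
  have hVsub : ∀ {z : ℂ}, z ∈ V → ‖G z - F z‖ ≤ 1 / 4 * ‖F z‖ ∧ χ z ^ k = F z ∧
      ContinuousAt G z ∧ z ∈ U := fun {z} hz => hVsub' z hz
  -- the local inverse
  have hfd := hχs.hasStrictFDerivAt_equiv hα0
  set Θ := hfd.toOpenPartialHomeomorph χ with hΘ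
  have haΘ : a ∈ Θ.source := hfd.mem_toOpenPartialHomeomorph_source
  have hΘcoe : ∀ z, Θ z = χ z := fun z => by rw [hΘ, hfd.toOpenPartialHomeomorph_coe]
  have h0Θ : (0 : ℂ) ∈ Θ.target := by
    have := Θ.map_source haΘ
    rwa [hΘcoe, hχa] at this
  have hsymm0 : Θ.symm 0 = a := by
    have := Θ.left_inv haΘ
    rwa [hΘcoe, hχa] at this
  have hcont0 : ContinuousAt Θ.symm 0 := Θ.continuousAt_symm h0Θ
  have hnb : ∀ᶠ u in 𝓝 (0 : ℂ), u ∈ Θ.target ∧ Θ.symm u ∈ V := by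
    have ht : ∀ᶠ u in 𝓝 (0 : ℂ), u ∈ Θ.target := Θ.open_target.mem_nhds h0Θ
    refine ht.and ?_
    refine hcont0.eventually_mem ?_
    rw [hsymm0]
    exact hVo.mem_nhds haV
  obtain ⟨r, hr, hball⟩ := Metric.eventually_nhds_iff_ball.mp hnb
  -- one curve
  have curve : ∀ ω : ℂ, ‖ω‖ = 1 → ω ^ k = 1 → ∀ e : ℝ, 0 < e → 2 * e < r ^ k →
      ∃ x : ℝ, ∃ q ∈ V, Θ.symm (ω * exp (log (⟨x, e⟩ : ℂ) / k)) = q ∧
        χ q = ω * exp (log (⟨x, e⟩ : ℂ) / k) ∧ F q = ⟨x, e⟩ ∧ (G q).re = 0 := by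
    intro ω hω1 hωk e he her
    set ρ : ℝ → ℂ := fun x => exp (log (⟨x, e⟩ : ℂ) / k) with hρ
    have hxe0 : ∀ x : ℝ, (⟨x, e⟩ : ℂ) ≠ 0 := by
      intro x h0
      have := congrArg Complex.im h0
      simp at this
      exact he.ne' this
    have hρk : ∀ x, ρ x ^ k = ⟨x, e⟩ := by
      intro x
      simp only [hρ]
      rw [← Complex.exp_nat_mul, mul_div_cancel₀ _ hk0, Complex.exp_log (hxe0 x)]
    have hmem : ∀ x ∈ Icc (-e) e, ω * ρ x ∈ ball (0 : ℂ) r := by
      intro x hx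
      rw [mem_ball_zero_iff, norm_mul, hω1, one_mul]
      refine lt_of_pow_lt_pow_left₀ k hr.le ?_
      rw [← norm_pow, hρk]
      refine lt_of_le_of_lt (Complex.norm_le_abs_re_add_abs_im _) ?_
      simp only
      have : |x| ≤ e := abs_le.mpr ⟨hx.1, hx.2⟩
      rw [abs_of_pos he]
      linarith
    have hρc : Continuous ρ := by
      have e1 : Continuous (fun x : ℝ => (⟨x, e⟩ : ℂ)) := by
        have : (fun x : ℝ => (⟨x, e⟩ : ℂ)) = fun x : ℝ => (x : ℂ) + (e : ℂ) * I := by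
          ext x
          apply Complex.ext <;> simp
        rw [this]
        fun_prop
      have e2 : Continuous (fun x : ℝ => log (⟨x, e⟩ : ℂ)) :=
        e1.clog fun x => by
          rw [mem_slitPlane_iff]
          exact Or.inr he.ne'
      exact Complex.continuous_exp.comp (e2.div_const _)
    set q : ℝ → ℂ := fun x => Θ.symm (ω * ρ x) with hq
    have hqV : ∀ x ∈ Icc (-e) e, q x ∈ V := fun x hx => (hball _ (hmem x hx)).2
    have hqχ : ∀ x ∈ Icc (-e) e, χ (q x) = ω * ρ x := by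
      intro x hx
      have := Θ.right_inv (hball _ (hmem x hx)).1
      rwa [hΘcoe] at this
    have hqF : ∀ x ∈ Icc (-e) e, F (q x) = ⟨x, e⟩ := by
      intro x hx
      have e1 := (hVsub (hqV x hx)).2.1
      rw [← e1, hqχ x hx, mul_pow, hωk, one_mul, hρk]
    have hqG : ∀ x ∈ Icc (-e) e, ‖G (q x) - F (q x)‖ ≤ 1 / 4 * ‖F (q x)‖ := fun x hx =>
      (hVsub (hqV x hx)).1
    have hqc : ContinuousOn q (Icc (-e) e) := by
      refine Θ.continuousOn_symm.comp (continuous_const.mul hρc).continuousOn ?_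
      intro x hx
      exact (hball _ (hmem x hx)).1
    have hGc : ContinuousOn (fun x => (G (q x)).re) (Icc (-e) e) := by
      intro x hx
      have e1 : ContinuousAt G (q x) := (hVsub (hqV x hx)).2.2.1
      have e2 := e1.comp_continuousWithinAt (hqc x hx)
      exact Complex.continuous_re.continuousAt.comp_continuousWithinAt e2
    have hends : ∀ x ∈ Icc (-e) e, |(G (q x)).re - x| ≤ 1 / 4 * (|x| + e) := by
      intro x hx
      have e1 := (Complex.abs_re_le_norm _).trans (hqG x hx)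
      rw [Complex.sub_re, hqF x hx] at e1
      refine e1.trans ?_
      have := Complex.norm_le_abs_re_add_abs_im (⟨x, e⟩ : ℂ)
      simp only [abs_of_pos he] at this
      linarith
    have hle : (G (q (-e))).re ≤ 0 := by
      have e1 := hends (-e) ⟨le_rfl, by linarith⟩
      rw [abs_neg, abs_of_pos he] at e1
      have := (abs_le.mp e1).2
      linarith
    have hge : 0 ≤ (G (q e)).re := by
      have e1 := hends e ⟨by linarith, le_rfl⟩
      rw [abs_of_pos he] at e1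
      have := (abs_le.mp e1).1
      linarith
    obtain ⟨x, hx, hx0⟩ := intermediate_value_Icc (by linarith : -e ≤ e) hGc ⟨hle, hge⟩
    exact ⟨x, q x, hqV x hx, rfl, hqχ x hx, hqF x hx, hx0⟩
  refine ⟨r ^ k / 2, by positivity, ?_⟩
  intro e he her
  have her' : 2 * e < r ^ k := by linarith
  have hprim := Complex.isPrimitiveRoot_exp k hkn
  set ω : ℂ := exp (2 * Real.pi * I / k) with hω
  have hω1 : ‖ω‖ = 1 := by
    have e1 : ‖ω‖ ^ k = 1 := by rw [← norm_pow, hprim.pow_eq_one, norm_one]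
    exact (pow_eq_one_iff_of_nonneg (norm_nonneg _) hkn).mp e1
  obtain ⟨x₁, q₁, hq₁V, -, hχ₁, hF₁, hG₁⟩ := curve 1 norm_one (one_pow k) e he her'
  obtain ⟨x₂, q₂, hq₂V, -, hχ₂, hF₂, hG₂⟩ := curve ω hω1 hprim.pow_eq_one e he her'
  refine ⟨q₁, (hVsub hq₁V).2.2.2, q₂, (hVsub hq₂V).2.2.2, ?_, by rw [hF₁], by rw [hF₂], hG₁, hG₂⟩
  rintro rfl
  rw [hF₁] at hF₂
  have hxx : x₁ = x₂ := congrArg Complex.re hF₂
  subst hxx
  rw [hχ₁] at hχ₂
  have e1 := mul_right_cancel₀ (Complex.exp_ne_zero _) hχ₂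
  exact hprim.ne_one (by omega) e1.symm

end Pool.Agent.Lib.MP4cd976.HL
end

section
/-!
# Uniqueness of preimages along a half-line by continuation, and quadratic asymptotics
-/
set_option autoImplicit false

open Complex Metric Set Filter Topology

namespace Pool.Agent.Lib.MP4cd976.HL

/-- Uniqueness of preimages along a horizontal half-line, by continuation from infinity. -/
theorem unique_preimage {K : Set ℂ} (hK : IsClosed K) {Ψ : ℂ → ℂ} (hΨ : ContinuousOn Ψ K)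
    {e s₀ S₁ : ℝ}
    (hnice : ∀ q ∈ K, (Ψ q).im = e → s₀ < (Ψ q).re →
      K ∈ 𝓝 q ∧ 𝓝 (Ψ q) ≤ map Ψ (𝓝 q) ∧ ∃ V ∈ 𝓝 q, InjOn Ψ V)
    (hprop : ∀ M : ℝ, ∃ R : ℝ, ∀ q ∈ K, ‖Ψ q‖ ≤ M → ‖q‖ ≤ R)
    (huniq : ∀ q₁ ∈ K, ∀ q₂ ∈ K, Ψ q₁ = Ψ q₂ → (Ψ q₁).im = e → S₁ < (Ψ q₁).re → q₁ = q₂)
    {q₁ q₂ : ℂ} (h₁ : q₁ ∈ K) (h₂ : q₂ ∈ K) (h : Ψ q₁ = Ψ q₂) (him : (Ψ q₁).im = e)
    (hre : s₀ < (Ψ q₁).re) : q₁ = q₂ := by
  by_contra hne
  set B : Set ℝ := {s | s₀ < s ∧ ∃ a ∈ K, ∃ b ∈ K, a ≠ b ∧ Ψ a = ⟨s, e⟩ ∧ Ψ b = ⟨s, e⟩} with hBdef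
  have hB : (Ψ q₁).re ∈ B := by
    refine ⟨hre, q₁, h₁, q₂, h₂, hne, ?_, ?_⟩
    · exact Complex.ext rfl him
    · rw [← h]; exact Complex.ext rfl him
  have hub : ∀ s ∈ B, s ≤ S₁ := by
    rintro s ⟨-, a, ha, b, hb, hab, hΨa, hΨb⟩
    by_contra hcon
    push Not at hcon
    exact hab (huniq a ha b hb (hΨa.trans hΨb.symm) (by rw [hΨa]) (by rw [hΨa]; exact hcon))
  have hbdd : BddAbove B := ⟨S₁, hub⟩
  set σ := sSup B with hσ
  have hσ0 : s₀ < σ := lt_of_lt_of_le hre (le_csSup hbdd hB)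
  have hσB : σ ∈ B := by
    obtain ⟨s, -, hst, hsB⟩ := exists_seq_tendsto_sSup ⟨_, hB⟩ hbdd
    choose hs0 a ha b hb hab hΨa hΨb using hsB
    set M : ℝ := max |s₀| |S₁| + |e| with hM
    obtain ⟨R, hR⟩ := hprop M
    have hn : ∀ n, ‖(⟨s n, e⟩ : ℂ)‖ ≤ M := by
      intro n
      refine (Complex.norm_le_abs_re_add_abs_im _).trans ?_
      have : |s n| ≤ max |s₀| |S₁| :=
        abs_le_max_abs_abs (hs0 n).le (hub _ ⟨hs0 n, a n, ha n, b n, hb n, hab n, hΨa n, hΨb n⟩)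
      simp only [hM]
      linarith
    set K' : Set ℂ := K ∩ closedBall 0 R with hK'
    have hK'c : IsCompact K' := (isCompact_closedBall 0 R).inter_left hK
    have haK : ∀ n, a n ∈ K' := fun n =>
      ⟨ha n, mem_closedBall_zero_iff.mpr (hR _ (ha n) (by rw [hΨa]; exact hn n))⟩
    have hbK : ∀ n, b n ∈ K' := fun n =>
      ⟨hb n, mem_closedBall_zero_iff.mpr (hR _ (hb n) (by rw [hΨb]; exact hn n))⟩
    obtain ⟨⟨a', b'⟩, hab', φ, hφ, hlim⟩ :=
      (hK'c.prod hK'c).tendsto_subseq (x := fun n => (a n, b n)) (fun n => ⟨haK n, hbK n⟩)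
    have hla : Tendsto (fun n => a (φ n)) atTop (𝓝 a') := by
      have := (continuous_fst.tendsto (a', b')).comp hlim
      exact this
    have hlb : Tendsto (fun n => b (φ n)) atTop (𝓝 b') := by
      have := (continuous_snd.tendsto (a', b')).comp hlim
      exact this
    have ha'K : a' ∈ K := hab'.1.1
    have hb'K : b' ∈ K := hab'.2.1
    have hsφ : Tendsto (fun n => (⟨s (φ n), e⟩ : ℂ)) atTop (𝓝 ⟨σ, e⟩) := by
      have h1 : Continuous (fun x : ℝ => (⟨x, e⟩ : ℂ)) := by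
        have : (fun x : ℝ => (⟨x, e⟩ : ℂ)) = fun x : ℝ => (x : ℂ) + (e : ℂ) * I := by
          ext x
          apply Complex.ext <;> simp
        rw [this]
        fun_prop
      exact (h1.tendsto σ).comp (hst.comp hφ.tendsto_atTop)
    have hΨa' : Ψ a' = ⟨σ, e⟩ := by
      have h1 : Tendsto (fun n => Ψ (a (φ n))) atTop (𝓝 (Ψ a')) :=
        (hΨ a' ha'K).tendsto.comp (tendsto_nhdsWithin_iff.mpr ⟨hla, Eventually.of_forall fun n => ha _⟩)
      refine tendsto_nhds_unique h1 ?_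
      simpa only [hΨa] using hsφ
    have hΨb' : Ψ b' = ⟨σ, e⟩ := by
      have h1 : Tendsto (fun n => Ψ (b (φ n))) atTop (𝓝 (Ψ b')) :=
        (hΨ b' hb'K).tendsto.comp (tendsto_nhdsWithin_iff.mpr ⟨hlb, Eventually.of_forall fun n => hb _⟩)
      refine tendsto_nhds_unique h1 ?_
      simpa only [hΨb] using hsφ
    refine ⟨hσ0, a', ha'K, b', hb'K, ?_, hΨa', hΨb'⟩
    rintro rfl
    obtain ⟨-, -, V, hV, hinj⟩ := hnice a' ha'K (by rw [hΨa']) (by rw [hΨa']; exact hσ0)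
    obtain ⟨n, hn1, hn2⟩ := ((hla.eventually_mem hV).and (hlb.eventually_mem hV)).exists
    exact hab (φ n) (hinj hn1 hn2 ((hΨa _).trans (hΨb _).symm))
  obtain ⟨-, a, ha, b, hb, hab, hΨa, hΨb⟩ := hσB
  obtain ⟨hKa, hopa, -⟩ := hnice a ha (by rw [hΨa]) (by rw [hΨa]; exact hσ0)
  obtain ⟨hKb, hopb, -⟩ := hnice b hb (by rw [hΨb]) (by rw [hΨb]; exact hσ0)
  obtain ⟨U₁, U₂, hU₁, hU₂, hdisj⟩ := t2_separation_nhds hab
  have hm1 : Ψ '' (K ∩ U₁) ∈ 𝓝 (⟨σ, e⟩ : ℂ) := by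
    rw [← hΨa]
    exact hopa (image_mem_map (inter_mem hKa hU₁))
  have hm2 : Ψ '' (K ∩ U₂) ∈ 𝓝 (⟨σ, e⟩ : ℂ) := by
    rw [← hΨb]
    exact hopb (image_mem_map (inter_mem hKb hU₂))
  have h1 : Continuous (fun x : ℝ => (⟨x, e⟩ : ℂ)) := by
    have : (fun x : ℝ => (⟨x, e⟩ : ℂ)) = fun x : ℝ => (x : ℂ) + (e : ℂ) * I := by
      ext x
      apply Complex.ext <;> simp
    rw [this]
    fun_prop
  have h2 := (h1.tendsto σ).eventually_mem (inter_mem hm1 hm2)
  obtain ⟨s, ⟨⟨a₁, ha₁, hΨa₁⟩, ⟨b₁, hb₁, hΨb₁⟩⟩, hs⟩ :=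
    ((h2.filter_mono nhdsWithin_le_nhds).and (self_mem_nhdsWithin (a := σ) (s := Ioi σ))).exists
  have hsB : s ∈ B := by
    refine ⟨hσ0.trans hs, a₁, ha₁.1, b₁, hb₁.1, ?_, hΨa₁, hΨb₁⟩
    rintro rfl
    exact Set.disjoint_left.mp hdisj ha₁.2 hb₁.2
  exact absurd (le_csSup hbdd hsB) (not_le.mpr hs)

theorem amgm {m : ℝ} (hm : 0 < m) (C t : ℝ) : C * t ≤ m * t ^ 2 + C ^ 2 / m := by
  have e : (m * t ^ 2 + C ^ 2 / m) * m = m ^ 2 * t ^ 2 + C ^ 2 := by field_simp
  have : C * t * m ≤ (m * t ^ 2 + C ^ 2 / m) * m := by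
    rw [e]
    nlinarith [sq_nonneg (m * t - C / 2), sq_nonneg C]
  exact le_of_mul_le_mul_right this hm

/-- Quadratic asymptotics in the right half-plane: properness, an upper bound, and uniqueness far
out. -/
theorem quad {c L : ℝ} {Pi : ℂ} {F G : ℂ → ℂ} (hc : 0 < c) (hPi : 0 < Pi.re)
    (hF : ∀ q₁ q₂ : ℂ, 0 ≤ q₁.re → 0 ≤ q₂.re →
      ‖(F q₁ - c * q₁ ^ 2) - (F q₂ - c * q₂ ^ 2)‖ ≤ L * ‖q₁ - q₂‖)
    (hG : ∀ q₁ q₂ : ℂ, 0 ≤ q₁.re → 0 ≤ q₂.re →
      ‖(G q₁ - Pi * (c * q₁ ^ 2)) - (G q₂ - Pi * (c * q₂ ^ 2))‖ ≤ L * ‖q₁ - q₂‖) :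
    (∀ M : ℝ, ∃ R : ℝ, ∀ q : ℂ, 0 ≤ q.re → |(G q).re| ≤ M → |(F q).im| ≤ M → ‖q‖ ≤ R) ∧
    (∃ C : ℝ, ∀ q : ℂ, 0 ≤ q.re → |(F q).im| ≤ 1 →
      (G q).re ≤ 2 * (c * Pi.re) * q.re ^ 2 - c * Pi.re * ‖q‖ ^ 2 + C * (‖q‖ + 1)) ∧
    (∃ S : ℝ, ∀ q₁ q₂ : ℂ, 0 ≤ q₁.re → 0 ≤ q₂.re → (G q₁).re = (G q₂).re →
      (F q₁).im = (F q₂).im → |(F q₁).im| ≤ 1 → S < (G q₁).re → q₁ = q₂) := by
  set a := Pi.re with ha
  set b := Pi.im with hb
  set E : ℂ → ℂ := fun q => F q - c * q ^ 2 with hE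
  set E₂ : ℂ → ℂ := fun q => G q - Pi * (c * q ^ 2) with hE₂
  set K₀ : ℝ := max (‖E 0‖) (max ‖E₂ 0‖ (max L 1)) with hK₀
  have hK1 : ‖E 0‖ ≤ K₀ := le_max_left _ _
  have hK2 : ‖E₂ 0‖ ≤ K₀ := (le_max_left _ _).trans (le_max_right _ _)
  have hK3 : L ≤ K₀ := (le_max_left _ _).trans ((le_max_right _ _).trans (le_max_right _ _))
  have hK4 : 1 ≤ K₀ := (le_max_right _ _).trans ((le_max_right _ _).trans (le_max_right _ _))
  have hEb : ∀ q : ℂ, 0 ≤ q.re → ‖E q‖ ≤ K₀ * (‖q‖ + 1) := by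
    intro q hq
    have h1 := hF q 0 hq le_rfl
    have h2 : ‖E q‖ ≤ ‖E q - E 0‖ + ‖E 0‖ := by
      have := norm_add_le (E q - E 0) (E 0)
      simpa using this
    have h3 : ‖E q - E 0‖ ≤ L * ‖q - 0‖ := h1
    rw [sub_zero] at h3
    nlinarith [norm_nonneg q]
  have hE₂b : ∀ q : ℂ, 0 ≤ q.re → ‖E₂ q‖ ≤ K₀ * (‖q‖ + 1) := by
    intro q hq
    have h1 := hG q 0 hq le_rfl
    have h2 : ‖E₂ q‖ ≤ ‖E₂ q - E₂ 0‖ + ‖E₂ 0‖ := by
      have := norm_add_le (E₂ q - E₂ 0) (E₂ 0)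
      simpa using this
    have h3 : ‖E₂ q - E₂ 0‖ ≤ L * ‖q - 0‖ := h1
    rw [sub_zero] at h3
    nlinarith [norm_nonneg q]
  have hsq_im : ∀ q : ℂ, c * (q ^ 2).im = (F q).im - (E q).im := by
    intro q
    simp only [hE, Complex.sub_im, Complex.mul_im, Complex.ofReal_re, Complex.ofReal_im]
    ring
  have hsq_re : ∀ q : ℂ, a * (c * (q ^ 2).re) = (G q).re - (E₂ q).re + b * (c * (q ^ 2).im) := by
    intro q
    simp only [hE₂, Complex.sub_re, Complex.mul_re, Complex.mul_im, Complex.ofReal_re,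
      Complex.ofReal_im, ha, hb]
    ring
  have him_b : ∀ q : ℂ, 0 ≤ q.re → |c * (q ^ 2).im| ≤ |(F q).im| + K₀ * (‖q‖ + 1) := by
    intro q hq
    rw [hsq_im]
    have h1 := abs_sub (F q).im (E q).im
    have h2 := (Complex.abs_im_le_norm (E q)).trans (hEb q hq)
    linarith
  refine ⟨?_, ?_, ?_⟩
  · intro M
    -- a * c * |q|^2 ≤ M + K₀ (|q|+1) + (a + |b|) (M + K₀ (|q| + 1))
    set T : ℝ := (1 + a + |b|) * (|M| + K₀) with hT
    have hT0 : 0 < T := by positivity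
    refine ⟨(T + T) / (a * c) + 1, ?_⟩
    intro q hq h1 h2
    have h3 := him_b q hq
    have h4 : |a * (c * (q ^ 2).re)| ≤ |(G q).re| + ‖E₂ q‖ + |b| * |c * (q ^ 2).im| := by
      rw [hsq_re, ← abs_mul]
      have e1 := abs_add_le ((G q).re - (E₂ q).re) (b * (c * (q ^ 2).im))
      have e2 := abs_sub (G q).re (E₂ q).re
      have e3 := Complex.abs_re_le_norm (E₂ q)
      linarith
    have h5 : ‖q‖ ^ 2 ≤ |(q ^ 2).re| + |(q ^ 2).im| := by
      rw [← norm_pow]
      exact Complex.norm_le_abs_re_add_abs_im _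
    have h6 : a * c * ‖q‖ ^ 2 ≤ |a * (c * (q ^ 2).re)| + a * |c * (q ^ 2).im| := by
      rw [abs_mul, abs_mul, abs_mul, abs_of_pos hc, abs_of_pos hPi]
      have := mul_le_mul_of_nonneg_left h5 (mul_pos hPi hc).le
      linarith
    have h7 := hE₂b q hq
    have hM : M ≤ |M| := le_abs_self M
    have hab : 0 ≤ a + |b| := by positivity
    have h8 : a * c * ‖q‖ ^ 2 ≤ T * (‖q‖ + 1) := by
      have e1 : |c * (q ^ 2).im| ≤ (|M| + K₀) * (‖q‖ + 1) := by
        nlinarith [norm_nonneg q, abs_nonneg M]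
      have e2 : |(G q).re| + ‖E₂ q‖ ≤ (|M| + K₀) * (‖q‖ + 1) := by
        nlinarith [norm_nonneg q, abs_nonneg M]
      have e3 : (a + |b|) * |c * (q ^ 2).im| ≤ (a + |b|) * ((|M| + K₀) * (‖q‖ + 1)) :=
        mul_le_mul_of_nonneg_left e1 hab
      have e4 : T * (‖q‖ + 1) = (|M| + K₀) * (‖q‖ + 1) + (a + |b|) * ((|M| + K₀) * (‖q‖ + 1)) := by
        rw [hT]; ring
      nlinarith
    by_contra hcon
    push Not at hcon
    have hac : 0 < a * c := mul_pos hPi hc
    have h9 : (T + T) / (a * c) < ‖q‖ := by linarith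
    rw [div_lt_iff₀ hac] at h9
    have h10 : 1 < ‖q‖ := by
      have : 0 < (T + T) / (a * c) := by positivity
      linarith
    nlinarith [mul_pos hT0 (sub_pos.mpr h10)]
  · refine ⟨|b| * (1 + K₀) + K₀, ?_⟩
    intro q hq h1
    have h3 := him_b q hq
    have h4 := hsq_re q
    have h5 := (Complex.abs_re_le_norm (E₂ q)).trans (hE₂b q hq)
    have h6 : (q ^ 2).re = 2 * q.re ^ 2 - ‖q‖ ^ 2 := by
      rw [← Complex.normSq_eq_norm_sq, Complex.normSq_apply, sq, Complex.mul_re]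
      ring
    have h7 : -(b * (c * (q ^ 2).im)) ≤ |b| * |c * (q ^ 2).im| := by
      rw [← abs_mul]; exact neg_le_abs _
    have h8 : |b| * |c * (q ^ 2).im| ≤ |b| * (1 + K₀ * (‖q‖ + 1)) :=
      mul_le_mul_of_nonneg_left (by linarith) (abs_nonneg b)
    have h9 : (G q).re = a * (c * (q ^ 2).re) + (E₂ q).re - b * (c * (q ^ 2).im) := by linarith
    rw [h9, h6]
    have h10 := le_abs_self (E₂ q).re
    have h11 : |b| * (1 + K₀ * (‖q‖ + 1)) ≤ |b| * (1 + K₀) * (‖q‖ + 1) := by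
      have : 0 ≤ |b| * ‖q‖ := by positivity
      nlinarith
    nlinarith
  · -- first the bound for equal values
    set L' : ℝ := (a + |b| + 1) * K₀ / a with hL'
    have hL'0 : 0 < L' := by positivity
    have key : ∀ q₁ q₂ : ℂ, 0 ≤ q₁.re → 0 ≤ q₂.re → (G q₁).re = (G q₂).re →
        (F q₁).im = (F q₂).im → q₁ ≠ q₂ → q₁.re ≤ L' / c := by
      intro q₁ q₂ h1 h2 hGe hFe hne
      set Y : ℂ := c * (q₁ ^ 2 - q₂ ^ 2) with hY
      set Δ : ℝ := ‖q₁ - q₂‖ with hΔ
      have hΔ0 : 0 < Δ := norm_pos_iff.mpr (sub_ne_zero.mpr hne)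
      have e1 : |Y.im| ≤ K₀ * Δ := by
        have : Y.im = -((F q₁ - c * q₁ ^ 2) - (F q₂ - c * q₂ ^ 2)).im := by
          simp only [hY, Complex.sub_im, Complex.mul_im, Complex.ofReal_re, Complex.ofReal_im, hFe]
          ring
        rw [this, abs_neg]
        exact ((Complex.abs_im_le_norm _).trans (hF q₁ q₂ h1 h2)).trans
          (mul_le_mul_of_nonneg_right hK3 hΔ0.le)
      have e2 : |(Pi * Y).re| ≤ K₀ * Δ := by
        have : (Pi * Y).re = -((G q₁ - Pi * (c * q₁ ^ 2)) - (G q₂ - Pi * (c * q₂ ^ 2))).re := by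
          simp only [hY, Complex.sub_re, Complex.sub_im, Complex.mul_re, Complex.mul_im,
            Complex.ofReal_re, Complex.ofReal_im, hGe]
          ring
        rw [this, abs_neg]
        exact ((Complex.abs_re_le_norm _).trans (hG q₁ q₂ h1 h2)).trans
          (mul_le_mul_of_nonneg_right hK3 hΔ0.le)
      have e3 : a * |Y.re| ≤ K₀ * Δ + |b| * (K₀ * Δ) := by
        have e4 : a * Y.re = (Pi * Y).re + b * Y.im := by
          rw [Complex.mul_re Pi Y, ← ha, ← hb]; ring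
        have e5 : a * |Y.re| = |a * Y.re| := by rw [abs_mul, abs_of_pos hPi]
        rw [e5, e4]
        have e6 := abs_add_le (Pi * Y).re (b * Y.im)
        rw [abs_mul] at e6
        have e7 := mul_le_mul_of_nonneg_left e1 (abs_nonneg b)
        linarith
      have e8 : a * ‖Y‖ ≤ (a + |b| + 1) * K₀ * Δ := by
        have := mul_le_mul_of_nonneg_left (Complex.norm_le_abs_re_add_abs_im Y) hPi.le
        have e9 := mul_le_mul_of_nonneg_left e1 hPi.le
        linarith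
      have e10 : ‖Y‖ ≤ L' * Δ := by
        rw [hL', div_mul_eq_mul_div, le_div_iff₀ hPi]
        linarith
      have e11 : ‖Y‖ = c * (‖q₁ + q₂‖ * Δ) := by
        rw [hY, norm_mul, Complex.norm_real, Real.norm_eq_abs, abs_of_pos hc, hΔ, ← norm_mul]
        congr 2
        ring
      rw [e11] at e10
      have e12 : c * ‖q₁ + q₂‖ ≤ L' := by
        have : (c * ‖q₁ + q₂‖) * Δ ≤ L' * Δ := by linarith
        exact le_of_mul_le_mul_right this hΔ0
      have e13 : q₁.re ≤ ‖q₁ + q₂‖ := by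
        have := (le_abs_self _).trans (Complex.abs_re_le_norm (q₁ + q₂))
        rw [Complex.add_re] at this
        linarith
      rw [le_div_iff₀ hc]
      nlinarith
    set C : ℝ := |b| * (1 + K₀) + K₀ with hC
    have hC0 : 0 < C := by positivity
    set B₁ : ℝ := L' / c with hB₁
    have hB₁0 : 0 < B₁ := by positivity
    refine ⟨2 * (c * a) * B₁ ^ 2 + C ^ 2 / (c * a) + C, ?_⟩
    intro q₁ q₂ h1 h2 hGe hFe hone hS
    by_contra hne
    have hkey := key q₁ q₂ h1 h2 hGe hFe hne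
    -- the upper bound
    have h3 := him_b q₁ h1
    have h4 := hsq_re q₁
    have h5 := (Complex.abs_re_le_norm (E₂ q₁)).trans (hE₂b q₁ h1)
    have h6 : (q₁ ^ 2).re = 2 * q₁.re ^ 2 - ‖q₁‖ ^ 2 := by
      rw [← Complex.normSq_eq_norm_sq, Complex.normSq_apply, sq, Complex.mul_re]
      ring
    have h7 : -(b * (c * (q₁ ^ 2).im)) ≤ |b| * |c * (q₁ ^ 2).im| := by
      rw [← abs_mul]; exact neg_le_abs _
    have h8 : |b| * |c * (q₁ ^ 2).im| ≤ |b| * (1 + K₀ * (‖q₁‖ + 1)) :=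
      mul_le_mul_of_nonneg_left (by linarith) (abs_nonneg b)
    have h9 : (G q₁).re = a * (c * (q₁ ^ 2).re) + (E₂ q₁).re - b * (c * (q₁ ^ 2).im) := by linarith
    have h10 := le_abs_self (E₂ q₁).re
    have h11 : |b| * (1 + K₀ * (‖q₁‖ + 1)) ≤ |b| * (1 + K₀) * (‖q₁‖ + 1) := by
      have : 0 ≤ |b| * ‖q₁‖ := by positivity
      nlinarith
    have h12 : (G q₁).re ≤ 2 * (c * a) * q₁.re ^ 2 - c * a * ‖q₁‖ ^ 2 + C * (‖q₁‖ + 1) := by
      rw [h9, h6]
      nlinarith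
    have h13 : q₁.re ^ 2 ≤ B₁ ^ 2 := by
      have := h1
      gcongr
    have hca : 0 < c * a := mul_pos hc hPi
    have h14 : C * ‖q₁‖ ≤ c * a * ‖q₁‖ ^ 2 + C ^ 2 / (c * a) := amgm hca C ‖q₁‖
    have h15 : 2 * (c * a) * q₁.re ^ 2 ≤ 2 * (c * a) * B₁ ^ 2 := by
      have := mul_le_mul_of_nonneg_left h13 (by positivity : 0 ≤ 2 * (c * a))
      linarith
    linarith

end Pool.Agent.Lib.MP4cd976.HL
end

section
/-!
# Comparison with the slit map of the same dilatation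
-/
set_option autoImplicit false

open Complex Metric Set Filter Topology

namespace Pool.Agent.Lib.MP4cd976.HL

/-- The real-linear map `v ↦ Re (P D v) + i Im (D v)`. -/
noncomputable def lin (P D : ℂ) : ℂ →ₗ[ℝ] ℂ where
  toFun v := ⟨(P * D * v).re, (D * v).im⟩
  map_add' v v' := by
    apply Complex.ext <;> simp [mul_add]
  map_smul' r v := by
    apply Complex.ext
    · simp only [Complex.real_smul, RingHom.id_apply, Complex.mul_re, Complex.mul_im,
        Complex.ofReal_re, Complex.ofReal_im]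
      ring
    · simp only [Complex.real_smul, RingHom.id_apply, Complex.mul_re, Complex.mul_im,
        Complex.ofReal_re, Complex.ofReal_im]
      ring

theorem lin_injective {P D : ℂ} (hP : 0 < P.re) (hD : D ≠ 0) : Function.Injective (lin P D) := by
  rw [← LinearMap.ker_eq_bot, LinearMap.ker_eq_bot']
  intro v hv
  have h1 : (P * D * v).re = 0 := congrArg Complex.re hv
  have h2 : (D * v).im = 0 := congrArg Complex.im hv
  rw [mul_assoc, Complex.mul_re, h2, mul_zero, sub_zero] at h1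
  have h3 : (D * v).re = 0 := by
    rcases mul_eq_zero.mp h1 with h | h
    · exact absurd h hP.ne'
    · exact h
  have h4 : D * v = 0 := Complex.ext h3 h2
  exact (mul_eq_zero.mp h4).resolve_left hD

/-- The map `(Re G, Im F)` with `G' = P F'`, `Re P > 0`, is locally a homeomorphism where
`F' ≠ 0`. -/
theorem local_homeo {F G : ℂ → ℂ} {P q : ℂ} (hF : HasStrictDerivAt F (deriv F q) q)
    (hG : HasStrictDerivAt G (P * deriv F q) q) (hP : 0 < P.re) (hD : deriv F q ≠ 0) :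
    𝓝 (⟨(G q).re, (F q).im⟩ : ℂ) ≤ map (fun z => (⟨(G z).re, (F z).im⟩ : ℂ)) (𝓝 q) ∧
      ∃ V ∈ 𝓝 q, InjOn (fun z => (⟨(G z).re, (F z).im⟩ : ℂ)) V := by
  set T : ℂ ≃L[ℝ] ℂ :=
    (LinearEquiv.ofInjectiveEndo (lin P (deriv F q)) (lin_injective hP hD)).toContinuousLinearEquiv
    with hT
  have hTv : ∀ v, T v = ⟨(P * deriv F q * v).re, (deriv F q * v).im⟩ := fun v => rfl
  set Ψ : ℂ → ℂ := fun z => (⟨(G z).re, (F z).im⟩ : ℂ) with hΨ
  have hs : HasStrictFDerivAt Ψ (T : ℂ →L[ℝ] ℂ) q := by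
    have e1 : HasStrictFDerivAt G
        ((ContinuousLinearMap.toSpanSingleton ℂ (P * deriv F q) : ℂ →L[ℂ] ℂ).restrictScalars ℝ) q :=
      (hG.hasStrictFDerivAt).restrictScalars ℝ
    have e2 : HasStrictFDerivAt F
        ((ContinuousLinearMap.toSpanSingleton ℂ (deriv F q) : ℂ →L[ℂ] ℂ).restrictScalars ℝ) q :=
      (hF.hasStrictFDerivAt).restrictScalars ℝ
    have e3 := (Complex.ofRealCLM.comp Complex.reCLM).hasStrictFDerivAt.comp q e1
    have e4 := (((ContinuousLinearMap.mul ℝ ℂ I).comp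
      (Complex.ofRealCLM.comp Complex.imCLM))).hasStrictFDerivAt.comp q e2
    have e5 := e3.add e4
    have e6 : Ψ = (fun z => ((Complex.ofRealCLM.comp Complex.reCLM) ∘ G) z +
        (((ContinuousLinearMap.mul ℝ ℂ I).comp (Complex.ofRealCLM.comp Complex.imCLM)) ∘ F) z) := by
      ext z
      apply Complex.ext <;> simp [hΨ]
    rw [e6]
    refine e5.congr_fderiv ?_
    ext v
    rw [ContinuousLinearEquiv.coe_coe, hTv]
    apply Complex.ext <;> simp [mul_comm, mul_left_comm]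
  refine ⟨?_, ?_⟩
  · rw [hs.map_nhds_eq_of_equiv]
  · refine ⟨(hs.toOpenPartialHomeomorph Ψ).source,
      (hs.toOpenPartialHomeomorph Ψ).open_source.mem_nhds hs.mem_toOpenPartialHomeomorph_source, ?_⟩
    have := (hs.toOpenPartialHomeomorph Ψ).injOn
    rwa [hs.toOpenPartialHomeomorph_coe] at this

theorem continuous_mk {f g : ℂ → ℂ} {s : Set ℂ} (hf : ContinuousOn f s) (hg : ContinuousOn g s) :
    ContinuousOn (fun z => (⟨(g z).re, (f z).im⟩ : ℂ)) s := by
  have e : (fun z => (⟨(g z).re, (f z).im⟩ : ℂ)) = fun z => ((g z).re : ℂ) + ((f z).im : ℂ) * I := by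
    ext z
    apply Complex.ext <;> simp
  rw [e]
  have h1 : ContinuousOn (fun z => ((g z).re : ℂ)) s :=
    Complex.continuous_ofReal.comp_continuousOn (Complex.continuous_re.comp_continuousOn hg)
  have h2 : ContinuousOn (fun z => ((f z).im : ℂ)) s :=
    Complex.continuous_ofReal.comp_continuousOn (Complex.continuous_im.comp_continuousOn hf)
  exact h1.add (h2.mul continuousOn_const)

/-- The critical values of a nonconstant analytic function have countably many imaginary parts. -/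
theorem exists_level {F : ℂ → ℂ} {U : Set ℂ} (hU : IsOpen U) (hUc : IsPreconnected U)
    (hF : DifferentiableOn ℂ F U) {a : ℂ} (ha : a ∈ U) (hne : ¬ ∀ᶠ z in 𝓝 a, F z = F a) {m : ℝ}
    (hm : 0 < m) : ∃ e : ℝ, 0 < e ∧ e < m ∧ ∀ q ∈ U, (F q).im = e → deriv F q ≠ 0 := by
  have hFa : AnalyticOnNhd ℂ F U := hF.analyticOnNhd hU
  have hdF : AnalyticOnNhd ℂ (deriv F) U := hFa.deriv
  have hcod : ∀ᶠ x in codiscreteWithin U, deriv F x ≠ 0 := by
    rcases hdF.eqOn_zero_or_eventually_ne_zero_of_preconnected hUc with h | h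
    · exfalso
      apply hne
      obtain ⟨r, hr, hball⟩ := Metric.mem_nhds_iff.mp (hU.mem_nhds ha)
      refine Metric.eventually_nhds_iff_ball.mpr ⟨r, hr, ?_⟩
      intro z hz
      refine (convex_ball a r).is_const_of_fderivWithin_eq_zero (𝕜 := ℂ) (hF.mono hball) ?_ hz
        (mem_ball_self hr)
      intro x hx
      rw [fderivWithin_of_isOpen isOpen_ball hx]
      ext
      rw [← toSpanSingleton_deriv]
      simp [h (hball hx)]
    · exact h
  have hcount : ({x | deriv F x ≠ 0}ᶜ ∩ U).Countable :=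
    (HereditarilyLindelofSpace.isLindelof _).countable_of_isDiscrete
      (isDiscrete_of_codiscreteWithin (by simpa using! hcod))
  have hcount2 : ((fun q => (F q).im) '' ({x | deriv F x ≠ 0}ᶜ ∩ U)).Countable := hcount.image _
  obtain ⟨e, he, he1⟩ := (hcount2.dense_compl ℝ).exists_between hm
  refine ⟨e, he1.1, he1.2, ?_⟩
  intro q hq hqe h0
  exact he ⟨q, ⟨by simpa using h0, hq⟩, hqe⟩

/-- A function with a derivative of the sign of `y - y*` is minimal at `y*`. -/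
theorem min_of_deriv_sign {r r' : ℝ → ℝ} {a : ℝ} (hr : ∀ y, HasDerivAt r (r' y) y)
    (h1 : ∀ y, y ≤ a → r' y ≤ 0) (h2 : ∀ y, a ≤ y → 0 ≤ r' y) (y : ℝ) : r a ≤ r y := by
  rcases le_total y a with h | h
  · have hanti : AntitoneOn r (Iic a) := by
      refine antitoneOn_of_deriv_nonpos (convex_Iic a)
        (fun x _ => (hr x).continuousAt.continuousWithinAt)
        (fun x _ => (hr x).differentiableAt.differentiableWithinAt) ?_
      intro x hx
      rw [interior_Iic] at hx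
      rw [(hr x).deriv]
      exact h1 x (le_of_lt hx)
    exact hanti h (mem_Iic.mpr le_rfl) h
  · have hmono : MonotoneOn r (Ici a) := by
      refine monotoneOn_of_deriv_nonneg (convex_Ici a)
        (fun x _ => (hr x).continuousAt.continuousWithinAt)
        (fun x _ => (hr x).differentiableAt.differentiableWithinAt) ?_
      intro x hx
      rw [interior_Ici] at hx
      rw [(hr x).deriv]
      exact h2 x (le_of_lt hx)
    exact hmono (mem_Ici.mpr le_rfl) h h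

/-- A compactness argument on the imaginary axis. -/
theorem axis_bound {F G : ℂ → ℂ} (hF : ContinuousOn F {q | q.re = 0})
    (hG : ContinuousOn G {q | q.re = 0}) {μ C' : ℝ} (hμ : 0 < μ)
    (hfar : ∀ q : ℂ, q.re = 0 → |(F q).im| ≤ 1 → (G q).re ≤ -μ * ‖q‖ ^ 2 + C' * (‖q‖ + 1))
    (h0 : ∀ q : ℂ, q.re = 0 → (F q).im = 0 → (G q).re < 0) :
    ∃ m : ℝ, 0 < m ∧ m ≤ 1 ∧ ∀ q : ℂ, q.re = 0 → |(F q).im| < m → (G q).re ≤ -m := by
  set C'' : ℝ := max C' 0 with hC''
  have hC''0 : 0 ≤ C'' := le_max_right _ _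
  have hC''1 : C' ≤ C'' := le_max_left _ _
  set Y : ℝ := (2 * C'' + 1) / μ + 1 with hY
  have hY1 : 1 ≤ Y := by
    have : 0 ≤ (2 * C'' + 1) / μ := by positivity
    linarith
  have hYμ : 2 * C'' + 1 ≤ μ * Y := by
    have : μ * ((2 * C'' + 1) / μ) = 2 * C'' + 1 := by field_simp
    rw [hY, mul_add, this]
    linarith
  have hout : ∀ q : ℂ, q.re = 0 → |(F q).im| ≤ 1 → Y ≤ ‖q‖ → (G q).re ≤ -1 := by
    intro q hq h1 h2
    refine (hfar q hq h1).trans ?_
    have e1 : μ * Y * ‖q‖ ≤ μ * ‖q‖ ^ 2 := by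
      have := mul_le_mul_of_nonneg_left h2 (mul_nonneg hμ.le (norm_nonneg q))
      nlinarith
    have e2 : (2 * C'' + 1) * ‖q‖ ≤ μ * Y * ‖q‖ := mul_le_mul_of_nonneg_right hYμ (norm_nonneg q)
    have e3 : C' * (‖q‖ + 1) ≤ C'' * (‖q‖ + 1) :=
      mul_le_mul_of_nonneg_right hC''1 (by positivity)
    have e4 : 1 ≤ ‖q‖ := hY1.trans h2
    have e5 : 0 ≤ C'' * (‖q‖ - 1) := mul_nonneg hC''0 (by linarith)
    nlinarith
  set K0 : Set ℂ := {q | q.re = 0} ∩ closedBall 0 Y with hK0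
  have hK0c : IsCompact K0 :=
    (isCompact_closedBall 0 Y).inter_left (isClosed_eq Complex.continuous_re continuous_const)
  have hne : K0.Nonempty := ⟨0, by simp, by simp; linarith⟩
  have hψc : ContinuousOn (fun q => max |(F q).im| (-(G q).re)) K0 := by
    have e1 : ContinuousOn (fun q => |(F q).im|) K0 :=
      (Complex.continuous_im.comp_continuousOn (hF.mono inter_subset_left)).abs
    have e2 : ContinuousOn (fun q => -(G q).re) K0 :=
      (Complex.continuous_re.comp_continuousOn (hG.mono inter_subset_left)).neg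
    exact e1.sup e2
  obtain ⟨q₀, hq₀, hmin⟩ := hK0c.exists_isMinOn hne hψc
  set m₀ := max |(F q₀).im| (-(G q₀).re) with hm₀
  have hm₀pos : 0 < m₀ := by
    rcases eq_or_ne (F q₀).im 0 with h | h
    · exact lt_max_of_lt_right (by have := h0 q₀ hq₀.1 h; linarith)
    · exact lt_max_of_lt_left (abs_pos.mpr h)
  refine ⟨min m₀ 1, lt_min hm₀pos one_pos, min_le_right _ _, ?_⟩
  intro q hq hqm
  rcases le_total Y ‖q‖ with h | h
  · have := hout q hq (hqm.le.trans (min_le_right _ _)) h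
    have := min_le_right m₀ 1
    linarith
  · have e1 : m₀ ≤ max |(F q).im| (-(G q).re) := hmin ⟨hq, mem_closedBall_zero_iff.mpr h⟩
    have e2 := min_le_left m₀ 1
    rcases le_max_iff.mp e1 with h1 | h1
    · linarith
    · linarith

/-- **Comparison with the slit map** in the right half-plane. -/
theorem qcore {κ y0 x0 η C : ℝ} {Φ 𝒢 P Γ : ℂ → ℂ} {Pi : ℂ} (hκ : 0 < κ) (hη : 0 < η)
    (hΦ : DifferentiableOn ℂ Φ {q | -η < q.re})
    (hP : DifferentiableOn ℂ P {q | -η < q.re}) (hPpos : ∀ q : ℂ, -η < q.re → 0 < (P q).re)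
    (h𝒢 : ∀ q : ℂ, -η < q.re → HasDerivAt 𝒢 (P q * deriv Φ q) q)
    (hΓ : ∀ q : ℂ, -η < q.re → HasDerivAt Γ (P q * (-((κ : ℂ) / 2) * q - I * y0)) q)
    (hΦ1 : Φ 1 = 0) (hΦ1' : deriv Φ 1 = -((κ : ℂ) / 2) - I * y0) (h𝒢1 : 𝒢 1 = 0) (hΓ1 : Γ 1 = 0)
    (hP1 : P 1 = 1) (hPi : 0 < Pi.re)
    (hb1 : ∀ q : ℂ, 0 ≤ q.re → ‖deriv Φ q‖ ≤ C) (hb2 : ∀ q : ℂ, 0 ≤ q.re → ‖P q‖ ≤ C)
    (hb3 : ∀ q : ℂ, 0 ≤ q.re → ‖P q - Pi‖ * ‖q‖ ≤ C)
    (hbd : ∀ q : ℂ, q.re = 0 → (Φ q).im = y0 → (𝒢 q).re < x0) :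
    (Γ (((-(2 * y0 / κ) : ℝ) : ℂ) * I)).re ≤ x0 := by
  by_contra hcon
  push Not at hcon
  set U : Set ℂ := {q | -η < q.re} with hU
  have hUo : IsOpen U := isOpen_lt continuous_const Complex.continuous_re
  have hUconv : Convex ℝ U := convex_halfSpace_re_gt (-η)
  set K : Set ℂ := {q | 0 ≤ q.re} with hK
  have hKc : IsClosed K := isClosed_le continuous_const Complex.continuous_re
  have hKconv : Convex ℝ K := convex_halfSpace_re_ge 0
  have hKU : K ⊆ U := fun q hq => lt_of_lt_of_le (neg_lt_zero.mpr hη) hq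
  have hC1 : 1 ≤ C := by
    have := hb2 1 (by simp)
    rwa [hP1, norm_one] at this
  set F : ℂ → ℂ := fun q => Φ q + (κ / 4 : ℂ) * (q ^ 2 - 1) + I * y0 * (q - 1) with hF
  set G : ℂ → ℂ := fun q => 𝒢 q - Γ q with hG
  have hFd : ∀ q ∈ U, HasDerivAt F (deriv Φ q + ((κ : ℂ) / 2) * q + I * y0) q := by
    intro q hq
    have e1 : HasDerivAt Φ (deriv Φ q) q := (hΦ.differentiableAt (hUo.mem_nhds hq)).hasDerivAt
    have e2 : HasDerivAt (fun q : ℂ => q ^ 2 - 1) (2 * q) q := by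
      simpa using ((hasDerivAt_id q).fun_pow 2).sub_const 1
    have e3 : HasDerivAt (fun q : ℂ => q - 1) 1 q := (hasDerivAt_id q).sub_const 1
    refine ((e1.fun_add (e2.const_mul (κ / 4 : ℂ))).fun_add (e3.const_mul (I * y0))).congr_deriv ?_
    ring
  have hGd : ∀ q ∈ U, HasDerivAt G (P q * deriv F q) q := by
    intro q hq
    rw [(hFd q hq).deriv]
    refine ((h𝒢 q hq).fun_sub (hΓ q hq)).congr_deriv ?_
    ring
  have hFdiff : DifferentiableOn ℂ F U := fun q hq =>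
    (hFd q hq).differentiableAt.differentiableWithinAt
  have hGdiff : DifferentiableOn ℂ G U := fun q hq =>
    (hGd q hq).differentiableAt.differentiableWithinAt
  have hFan : AnalyticOnNhd ℂ F U := hFdiff.analyticOnNhd hUo
  have hGan : AnalyticOnNhd ℂ G U := hGdiff.analyticOnNhd hUo
  have h1U : (1 : ℂ) ∈ U := hKU (by simp [hK])
  have hF1 : F 1 = 0 := by simp [hF, hΦ1]
  have hF1' : deriv F 1 = 0 := by
    rw [(hFd 1 h1U).deriv, hΦ1']
    ring
  have hG1 : G 1 = 0 := by simp [hG, h𝒢1, hΓ1]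
  -- `F` is not locally zero
  have hne : ¬ ∀ᶠ z in 𝓝 (1 : ℂ), F z = 0 := by
    intro h
    have h1 := hFan.eqOn_zero_of_preconnected_of_eventuallyEq_zero hUconv.isPreconnected h1U h
    set t : ℝ := 2 * (C + 1) / κ with ht
    have ht0 : 0 < t := by positivity
    have htU : (t : ℂ) ∈ U := hKU (by simp [hK, ht0.le])
    have h2 : deriv F t = 0 := by
      have e : F =ᶠ[𝓝 (t : ℂ)] fun _ => 0 :=
        Filter.eventuallyEq_of_mem (hUo.mem_nhds htU) h1
      rw [e.deriv_eq]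
      simp
    rw [(hFd t htU).deriv] at h2
    have h3 := hb1 t (by simp [ht0.le])
    have h4 : deriv Φ t = -((κ : ℂ) / 2 * t) - I * y0 := by linear_combination h2
    have h5 : |(deriv Φ t).re| ≤ C := (Complex.abs_re_le_norm _).trans h3
    have h6 : (deriv Φ t).re = -(κ / 2 * t) := by
      rw [h4]
      simp
    rw [h6, abs_neg, abs_of_pos (by positivity), ht] at h5
    have h7 : κ / 2 * (2 * (C + 1) / κ) = C + 1 := by field_simp
    rw [h7] at h5
    linarith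
  -- quadratic asymptotics
  set L : ℝ := C * (C + |y0|) + κ / 2 * C with hL
  have hLge : C + |y0| ≤ L := by
    have : 0 ≤ κ / 2 * C := by positivity
    nlinarith [abs_nonneg y0]
  have hbound1 : ∀ q ∈ K, ‖deriv Φ q + I * y0‖ ≤ C + |y0| := by
    intro q hq
    refine (norm_add_le _ _).trans ?_
    rw [norm_mul, norm_I, one_mul, Complex.norm_real, Real.norm_eq_abs]
    linarith [hb1 q hq]
  have hcast : ((κ / 4 : ℝ) : ℂ) = (κ : ℂ) / 4 := by push_cast; ring
  have hq1 : ∀ q₁ q₂ : ℂ, 0 ≤ q₁.re → 0 ≤ q₂.re →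
      ‖(F q₁ - ((κ / 4 : ℝ) : ℂ) * q₁ ^ 2) - (F q₂ - ((κ / 4 : ℝ) : ℂ) * q₂ ^ 2)‖
        ≤ L * ‖q₁ - q₂‖ := by
    intro q₁ q₂ h₁ h₂
    refine hKconv.norm_image_sub_le_of_norm_hasDerivWithin_le
      (f := fun q => F q - ((κ / 4 : ℝ) : ℂ) * q ^ 2) (f' := fun q => deriv Φ q + I * y0)
      ?_ ?_ h₂ h₁
    · intro q hq
      have e2 : HasDerivAt (fun q : ℂ => q ^ 2) (2 * q) q := by
        simpa using (hasDerivAt_id q).fun_pow 2
      refine (((hFd q (hKU hq)).fun_sub (e2.const_mul ((κ / 4 : ℝ) : ℂ))).congr_deriv ?_).hasDerivWithinAt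
      rw [hcast]
      ring
    · intro q hq
      exact (hbound1 q hq).trans hLge
  have hq2 : ∀ q₁ q₂ : ℂ, 0 ≤ q₁.re → 0 ≤ q₂.re →
      ‖(G q₁ - Pi * (((κ / 4 : ℝ) : ℂ) * q₁ ^ 2)) - (G q₂ - Pi * (((κ / 4 : ℝ) : ℂ) * q₂ ^ 2))‖
        ≤ L * ‖q₁ - q₂‖ := by
    intro q₁ q₂ h₁ h₂
    refine hKconv.norm_image_sub_le_of_norm_hasDerivWithin_le
      (f := fun q => G q - Pi * (((κ / 4 : ℝ) : ℂ) * q ^ 2))
      (f' := fun q => P q * (deriv Φ q + I * y0) + (P q - Pi) * ((κ : ℂ) / 2 * q))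
      ?_ ?_ h₂ h₁
    · intro q hq
      have e2 : HasDerivAt (fun q : ℂ => q ^ 2) (2 * q) q := by
        simpa using (hasDerivAt_id q).fun_pow 2
      refine (((hGd q (hKU hq)).fun_sub
        ((e2.const_mul ((κ / 4 : ℝ) : ℂ)).const_mul Pi)).congr_deriv ?_).hasDerivWithinAt
      rw [hcast, (hFd q (hKU hq)).deriv]
      ring
    · intro q hq
      refine (norm_add_le _ _).trans ?_
      rw [norm_mul, norm_mul, norm_mul]
      have e3 : ‖P q‖ * ‖deriv Φ q + I * y0‖ ≤ C * (C + |y0|) :=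
        mul_le_mul (hb2 q hq) (hbound1 q hq) (norm_nonneg _) (by linarith)
      have e4 : ‖(κ : ℂ) / 2‖ = κ / 2 := by
        rw [show (κ : ℂ) / 2 = ((κ / 2 : ℝ) : ℂ) by push_cast; ring, Complex.norm_real,
          Real.norm_eq_abs, abs_of_pos (by positivity)]
      rw [e4]
      have e5 := mul_le_mul_of_nonneg_left (hb3 q hq) (by positivity : 0 ≤ κ / 2)
      rw [hL]
      linarith
  obtain ⟨hprop, ⟨C', hC'⟩, ⟨S, hS⟩⟩ := quad (c := κ / 4) (L := L) (Pi := Pi) (F := F) (G := G)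
    (by positivity) hPi hq1 hq2
  -- the boundary
  have hFim : ∀ q : ℂ, q.re = 0 → (F q).im = (Φ q).im - y0 := by
    intro q hq
    have e1 : ((κ / 4 : ℂ) * (q ^ 2 - 1)).im = 0 := by
      rw [← hcast, Complex.im_ofReal_mul, Complex.sub_im, sq, Complex.mul_im, hq]
      simp
    have e2 : (I * y0 * (q - 1)).im = -y0 := by
      rw [mul_assoc, Complex.I_mul_im, Complex.re_ofReal_mul, Complex.sub_re, hq]
      simp
    simp only [hF, Complex.add_im, e1, e2]
    ring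
  have hΓmin : ∀ q : ℂ, q.re = 0 → (Γ (((-(2 * y0 / κ) : ℝ) : ℂ) * I)).re ≤ (Γ q).re := by
    intro q hq
    have hqe : q = ((q.im : ℝ) : ℂ) * I := by
      apply Complex.ext <;> simp [hq]
    have hr : ∀ y : ℝ, HasDerivAt (fun y : ℝ => (Γ ((y : ℂ) * I)).re)
        ((P ((y : ℂ) * I)).re * (κ / 2 * y + y0)) y := by
      intro y
      have hyU : (y : ℂ) * I ∈ U := hKU (by simp [hK])
      have e1 : HasDerivAt (fun y : ℝ => (y : ℂ) * I) I y := by
        simpa using (Complex.ofRealCLM.hasDerivAt (x := y)).mul_const I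
      have e2 : HasDerivAt (fun y : ℝ => Γ ((y : ℂ) * I))
          (P ((y : ℂ) * I) * (-((κ : ℂ) / 2) * ((y : ℂ) * I) - I * y0) * I) y :=
        (hΓ _ hyU).comp y e1
      have e3 := Complex.reCLM.hasFDerivAt.comp_hasDerivAt y e2
      refine e3.congr_deriv ?_
      have e4 : P ((y : ℂ) * I) * (-((κ : ℂ) / 2) * ((y : ℂ) * I) - I * y0) * I
          = P ((y : ℂ) * I) * ((κ / 2 * y + y0 : ℝ) : ℂ) := by
        push_cast
        linear_combination (-(P ((y : ℂ) * I)) * ((κ : ℂ) / 2 * y + y0)) * I_sq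
      rw [e4, Complex.reCLM_apply, Complex.re_mul_ofReal]
    rw [hqe]
    refine min_of_deriv_sign (r := fun y : ℝ => (Γ ((y : ℂ) * I)).re) hr ?_ ?_ q.im
    · intro y hy
      have e1 : 0 < (P ((y : ℂ) * I)).re := hPpos _ (hKU (by simp [hK]))
      refine mul_nonpos_of_nonneg_of_nonpos e1.le ?_
      have e2 : κ / 2 * y ≤ κ / 2 * (-(2 * y0 / κ)) := mul_le_mul_of_nonneg_left hy (by positivity)
      have e3 : κ / 2 * (-(2 * y0 / κ)) = -y0 := by field_simp
      linarith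
    · intro y hy
      have e1 : 0 < (P ((y : ℂ) * I)).re := hPpos _ (hKU (by simp [hK]))
      refine mul_nonneg e1.le ?_
      have e2 : κ / 2 * (-(2 * y0 / κ)) ≤ κ / 2 * y := mul_le_mul_of_nonneg_left hy (by positivity)
      have e3 : κ / 2 * (-(2 * y0 / κ)) = -y0 := by field_simp
      linarith
  have h0neg : ∀ q : ℂ, q.re = 0 → (F q).im = 0 → (G q).re < 0 := by
    intro q hq h0
    rw [hFim q hq] at h0
    have e1 := hbd q hq (by linarith)
    have e2 := hΓmin q hq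
    simp only [hG, Complex.sub_re]
    linarith
  have haxisK : {q : ℂ | q.re = 0} ⊆ U := fun q hq => hKU (le_of_eq (Eq.symm hq))
  obtain ⟨m, hm0, hm1, hm⟩ := axis_bound (F := F) (G := G) (μ := κ / 4 * Pi.re) (C' := C')
    (hFdiff.continuousOn.mono haxisK) (hGdiff.continuousOn.mono haxisK) (by positivity)
    (by
      intro q hq h1
      have := hC' q (le_of_eq hq.symm) h1
      rw [hq] at this
      linarith) h0neg
  -- two points
  have hPc : ContinuousAt P 1 := (hP.differentiableAt (hUo.mem_nhds h1U)).continuousAt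
  have hUpos : {q : ℂ | 0 < q.re} ∈ 𝓝 (1 : ℂ) :=
    (isOpen_lt continuous_const Complex.continuous_re).mem_nhds (by simp)
  obtain ⟨ε, hε, htwo⟩ := two_points (P := P) (hFan 1 h1U)
    (Filter.eventually_of_mem (hUo.mem_nhds h1U) hGd) hPc hP1 hF1 hF1' hG1 hne hUpos
  obtain ⟨e, he0, he1, hlev⟩ := exists_level hUo hUconv.isPreconnected hFdiff h1U
    (by rw [hF1]; exact hne) (lt_min hm0 hε)
  obtain ⟨q₁, hq₁, q₂, hq₂, hqne, hi₁, hi₂, hr₁, hr₂⟩ :=
    htwo e he0 (lt_of_lt_of_le he1 (min_le_right _ _))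
  have hem : e < m := lt_of_lt_of_le he1 (min_le_left _ _)
  have hq₁K : q₁ ∈ K := le_of_lt (show 0 < q₁.re from hq₁)
  have hq₂K : q₂ ∈ K := le_of_lt (show 0 < q₂.re from hq₂)
  apply hqne
  refine unique_preimage (K := K) hKc (Ψ := fun q => (⟨(G q).re, (F q).im⟩ : ℂ))
    (continuous_mk (hFdiff.continuousOn.mono hKU) (hGdiff.continuousOn.mono hKU))
    (e := e) (s₀ := -m) (S₁ := S) ?_ ?_ ?_ hq₁K hq₂K ?_ hi₁ ?_
  · intro q hq hqi hqr
    simp only at hqi hqr
    have hqpos : 0 < q.re := by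
      rcases eq_or_lt_of_le (show 0 ≤ q.re from hq) with h | h
      · have := hm q h.symm (by rw [hqi, abs_of_pos he0]; exact hem)
        linarith
      · exact h
    have hqU : q ∈ U := hKU hq
    have hD : deriv F q ≠ 0 := hlev q hqU hqi
    have hsF : HasStrictDerivAt F (deriv F q) q := (hFan q hqU).hasStrictDerivAt
    have hsG : HasStrictDerivAt G (P q * deriv F q) q := by
      have := (hGan q hqU).hasStrictDerivAt
      rwa [(hGd q hqU).deriv] at this
    refine ⟨?_, local_homeo hsF hsG (hPpos q hqU) hD⟩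
    exact Filter.mem_of_superset
      ((isOpen_lt continuous_const Complex.continuous_re).mem_nhds hqpos)
      fun z hz => le_of_lt (show 0 < z.re from hz)
  · intro M
    obtain ⟨R, hR⟩ := hprop M
    refine ⟨R, ?_⟩
    intro q hq hqM
    exact hR q hq ((Complex.abs_re_le_norm (⟨(G q).re, (F q).im⟩ : ℂ)).trans hqM)
      ((Complex.abs_im_le_norm (⟨(G q).re, (F q).im⟩ : ℂ)).trans hqM)
  · intro p₁ hp₁ p₂ hp₂ heq him hre
    simp only [Complex.mk.injEq] at heq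
    obtain ⟨e1, e2⟩ := heq
    simp only at him hre
    refine hS p₁ p₂ hp₁ hp₂ e1 e2 ?_ hre
    rw [him, abs_of_pos he0]
    linarith
  · rw [hr₁, hr₂, hi₁, hi₂]
  · rw [hr₁]
    linarith

end Pool.Agent.Lib.MP4cd976.HL
end

section
/-!
# MP_4cd976_an, own theorem: the local step of Lewy's theorem by the area formula

An injective harmonic map `H + conj G` with `H' = z^n K`, `K(0) ≠ 0` and `|G'| = o(|z|^n)` has
`n = 0`: the area of the image of a small disc is at most the area of the smallest disc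
containing it.
-/
set_option autoImplicit false

open Complex Metric Set Filter Topology MeasureTheory

namespace Pool.Agent.Lib.MP4cd976.Own

/-- The real derivative `v ↦ A v + conj (B v)`. -/
noncomputable def dmap (A B : ℂ) : ℂ →L[ℝ] ℂ :=
  (ContinuousLinearMap.mul ℝ ℂ A) + (Complex.conjCLE : ℂ →L[ℝ] ℂ).comp
    (ContinuousLinearMap.mul ℝ ℂ B)

lemma dmap_apply (A B v : ℂ) : dmap A B v = A * v + (starRingEnd ℂ) (B * v) := by
  simp [dmap]

lemma dmap_det (A B : ℂ) : (dmap A B).det = ‖A‖ ^ 2 - ‖B‖ ^ 2 := by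
  have h1 : (dmap A B).det
      = (LinearMap.toMatrix Complex.basisOneI Complex.basisOneI
          ((dmap A B : ℂ →L[ℝ] ℂ) : ℂ →ₗ[ℝ] ℂ)).det := by
    rw [LinearMap.det_toMatrix]
  rw [h1, Matrix.det_fin_two]
  simp only [LinearMap.toMatrix_apply, Complex.coe_basisOneI, ContinuousLinearMap.coe_coe,
    dmap_apply, Matrix.cons_val_zero, Matrix.cons_val_one, Complex.coe_basisOneI_repr]
  rw [← Complex.normSq_eq_norm_sq, ← Complex.normSq_eq_norm_sq, Complex.normSq_apply,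
    Complex.normSq_apply]
  simp
  ring

lemma hasFDerivAt_dmap {H G : ℂ → ℂ} {A B z : ℂ} (hH : HasDerivAt H A z)
    (hG : HasDerivAt G B z) :
    HasFDerivAt (fun z => H z + (starRingEnd ℂ) (G z)) (dmap A B) z := by
  have a1 := hH.hasFDerivAt.restrictScalars ℝ
  have a2 := hG.hasFDerivAt.restrictScalars ℝ
  have a3 := (Complex.conjCLE : ℂ ≃L[ℝ] ℂ).hasFDerivAt.comp z a2
  have a4 := a1.add a3
  refine a4.congr_fderiv ?_
  ext v
  simp [dmap, mul_comm]

lemma integral_pow_ball (n : ℕ) {ρ : ℝ} (hρ : 0 < ρ) :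
    ∫ z in ball (0 : ℂ) ρ, ‖z‖ ^ (2 * n) = Real.pi * ρ ^ (2 * n + 2) / (n + 1) := by
  have h1 : ∫ z in ball (0 : ℂ) ρ, ‖z‖ ^ (2 * n)
      = ∫ z : ℂ, (Iio ρ).indicator (fun y : ℝ => y ^ (2 * n)) ‖z‖ := by
    rw [← integral_indicator measurableSet_ball]
    congr 1
    ext z
    by_cases hz : ‖z‖ < ρ
    · rw [indicator_of_mem (show z ∈ ball (0 : ℂ) ρ by simpa using hz),
        indicator_of_mem (show ‖z‖ ∈ Iio ρ from hz)]
    · rw [indicator_of_notMem (show z ∉ ball (0 : ℂ) ρ by simpa using hz),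
        indicator_of_notMem (show ‖z‖ ∉ Iio ρ from hz)]
  rw [h1, integral_fun_norm_addHaar volume (fun x => (Iio ρ).indicator (fun y : ℝ => y ^ (2 * n)) x)]
  have h2 : ∫ y in Ioi (0 : ℝ), y ^ (Module.finrank ℝ ℂ - 1) •
      (Iio ρ).indicator (fun y : ℝ => y ^ (2 * n)) y = ∫ y in (0 : ℝ)..ρ, y ^ (2 * n + 1) := by
    rw [intervalIntegral.integral_of_le hρ.le, ← integral_Ioc_eq_integral_Ioo.symm,
      ← integral_indicator measurableSet_Ioi, ← integral_indicator measurableSet_Ioo]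
    congr 1
    ext y
    by_cases h0 : 0 < y
    · by_cases hy : y < ρ
      · rw [indicator_of_mem (show y ∈ Ioi (0 : ℝ) from h0),
          indicator_of_mem (show y ∈ Iio ρ from hy), indicator_of_mem (show y ∈ Ioo 0 ρ from ⟨h0, hy⟩)]
        simp [Complex.finrank_real_complex]
        ring
      · rw [indicator_of_mem (show y ∈ Ioi (0 : ℝ) from h0),
          indicator_of_notMem (show y ∉ Iio ρ from hy),
          indicator_of_notMem (show y ∉ Ioo 0 ρ from fun h => hy h.2)]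
        simp
    · rw [indicator_of_notMem (show y ∉ Ioi (0 : ℝ) from h0),
          indicator_of_notMem (show y ∉ Ioo 0 ρ from fun h => h0 h.1)]
  rw [h2, integral_pow]
  have h3 : (volume : Measure ℂ).real (ball (0 : ℂ) 1) = Real.pi := by
    rw [Measure.real, Complex.volume_ball]
    simp
  rw [h3]
  simp [Complex.finrank_real_complex]
  field_simp
  ring

/-- **Area argument.** -/
theorem order_eq_zero {H G K : ℂ → ℂ} {n : ℕ} {δ : ℝ} (hδ : 0 < δ)
    (hH : ∀ z ∈ ball (0 : ℂ) δ, HasDerivAt H (z ^ n * K z) z)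
    (hG : DifferentiableOn ℂ G (ball 0 δ)) (hK : ContinuousAt K 0) (hK0 : K 0 ≠ 0)
    (hGε : ∀ ε : ℝ, 0 < ε → ∀ᶠ z in 𝓝 (0 : ℂ), ‖deriv G z‖ ≤ ε * ‖z‖ ^ n)
    (hinj : InjOn (fun z => H z + (starRingEnd ℂ) (G z)) (ball 0 δ)) : n = 0 := by
  by_contra hn
  set C : ℂ := K 0 with hC
  set m : ℝ := (n : ℝ) + 1 with hm
  have hm2 : 2 ≤ m := by
    have : (1 : ℝ) ≤ n := by exact_mod_cast Nat.one_le_iff_ne_zero.mpr hn
    linarith
  have hC0 : 0 < ‖C‖ := norm_pos_iff.mpr hK0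
  set ε : ℝ := ‖C‖ / (16 * m) with hε
  have hε0 : 0 < ε := by positivity
  have hK1 : ∀ᶠ z in 𝓝 (0 : ℂ), ‖K z - C‖ ≤ ε := by
    have := Metric.continuousAt_iff.mp hK ε hε0
    obtain ⟨d, hd, hd'⟩ := this
    filter_upwards [ball_mem_nhds (0 : ℂ) hd] with z hz
    have := hd' hz
    rw [dist_eq_norm] at this
    exact this.le
  obtain ⟨ρ₀, hρ₀, hρ⟩ := Metric.eventually_nhds_iff_ball.mp
    ((hK1.and (hGε ε hε0)).and (ball_mem_nhds (0 : ℂ) hδ))
  set ρ : ℝ := ρ₀ / 2 with hρdef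
  have hρ0 : 0 < ρ := by positivity
  have hsub : ∀ z : ℂ, ‖z‖ < ρ₀ → ‖K z - C‖ ≤ ε ∧ ‖deriv G z‖ ≤ ε * ‖z‖ ^ n ∧ z ∈ ball (0 : ℂ) δ := by
    intro z hz
    have := hρ z (by simpa using hz)
    exact ⟨this.1.1, this.1.2, this.2⟩
  set F : ℂ → ℂ := fun z => H z + (starRingEnd ℂ) (G z) with hF
  have hGd : ∀ z ∈ ball (0 : ℂ) δ, HasDerivAt G (deriv G z) z := fun z hz =>
    (hG.differentiableAt (isOpen_ball.mem_nhds hz)).hasDerivAt
  -- size of F
  have hFsize : ∀ z : ℂ, ‖z‖ < ρ → ‖F z - F 0‖ ≤ (‖C‖ / m + 2 * ε) * ρ ^ (n + 1) := by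
    intro z hz
    have hconv : Convex ℝ (closedBall (0 : ℂ) ‖z‖) := convex_closedBall _ _
    have hmem : ∀ w ∈ closedBall (0 : ℂ) ‖z‖, ‖w‖ < ρ₀ := by
      intro w hw
      have : ‖w‖ ≤ ‖z‖ := by simpa using hw
      linarith
    have h1 : ‖(H z - C / m * z ^ (n + 1)) - (H 0 - C / m * 0 ^ (n + 1))‖
        ≤ (ε * ‖z‖ ^ n) * ‖z - 0‖ := by
      apply hconv.norm_image_sub_le_of_norm_hasDerivWithin_le
        (f := fun w => H w - C / m * w ^ (n + 1)) (f' := fun w => w ^ n * (K w - C))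
      · intro w hw
        have hw' := hsub w (hmem w hw)
        have e1 : HasDerivAt (fun w : ℂ => w ^ (n + 1)) (((n + 1 : ℕ) : ℂ) * w ^ n) w := by
          simpa using hasDerivAt_pow (n + 1) w
        have e2 := (hH w hw'.2.2).sub (e1.const_mul (C / m))
        refine (e2.congr_deriv ?_).hasDerivWithinAt
        have : (m : ℂ) ≠ 0 := by
          have : m ≠ 0 := by linarith
          exact_mod_cast this
        rw [hm] at this ⊢
        push_cast at this ⊢
        field_simp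
      · intro w hw
        have hw' := hsub w (hmem w hw)
        have hwz : ‖w‖ ≤ ‖z‖ := by simpa using hw
        rw [norm_mul, norm_pow, mul_comm ε]
        exact mul_le_mul (pow_le_pow_left₀ (norm_nonneg _) hwz n) hw'.1 (norm_nonneg _)
          (by positivity)
      · simp
      · simp
    have h2 : ‖G z - G 0‖ ≤ (ε * ‖z‖ ^ n) * ‖z - 0‖ := by
      apply hconv.norm_image_sub_le_of_norm_hasDerivWithin_le (f' := deriv G)
      · intro w hw
        exact (hGd w (hsub w (hmem w hw)).2.2).hasDerivWithinAt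
      · intro w hw
        have hwz : ‖w‖ ≤ ‖z‖ := by simpa using hw
        exact (hsub w (hmem w hw)).2.1.trans
          (mul_le_mul_of_nonneg_left (pow_le_pow_left₀ (norm_nonneg _) hwz n) hε0.le)
      · simp
      · simp
    have h3 : F z - F 0 = ((H z - C / m * z ^ (n + 1)) - (H 0 - C / m * 0 ^ (n + 1)))
        + (starRingEnd ℂ) (G z - G 0) + C / m * z ^ (n + 1) := by
      simp only [hF, map_sub]
      ring
    have hmc : ‖(m : ℂ)‖ = m := by
      rw [Complex.norm_real, Real.norm_eq_abs, abs_of_pos (by linarith)]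
    have h4 : ‖F z - F 0‖ ≤ ε * ‖z‖ ^ (n + 1) + ε * ‖z‖ ^ (n + 1) + ‖C‖ / m * ‖z‖ ^ (n + 1) := by
      rw [h3]
      refine (norm_add_le _ _).trans (add_le_add ((norm_add_le _ _).trans (add_le_add ?_ ?_)) ?_)
      · refine h1.trans (le_of_eq ?_)
        rw [sub_zero]; ring
      · rw [RCLike.norm_conj]
        refine h2.trans (le_of_eq ?_)
        rw [sub_zero]; ring
      · rw [norm_mul, norm_div, norm_pow, hmc]
    have h5 : ‖z‖ ^ (n + 1) ≤ ρ ^ (n + 1) := pow_le_pow_left₀ (norm_nonneg _) hz.le _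
    have h6 : 0 ≤ ‖C‖ / m := by positivity
    nlinarith
  -- area of the image
  set R : ℝ := (‖C‖ / m + 2 * ε) * ρ ^ (n + 1) with hR
  have hR0 : 0 ≤ R := by positivity
  have hballsub : ball (0 : ℂ) ρ ⊆ ball 0 δ := fun z hz =>
    (hsub z (by have : ‖z‖ < ρ := by simpa using hz
                linarith)).2.2
  have harea := lintegral_abs_det_fderiv_eq_addHaar_image (volume : Measure ℂ)
    (s := ball (0 : ℂ) ρ) (f := F) (f' := fun z => dmap (z ^ n * K z) (deriv G z))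
    measurableSet_ball
    (fun z hz => (hasFDerivAt_dmap (hH z (hballsub hz)) (hGd z (hballsub hz))).hasFDerivWithinAt)
    (hinj.mono hballsub)
  have himg : (volume : Measure ℂ) (F '' ball (0 : ℂ) ρ) ≤ ENNReal.ofReal (Real.pi * R ^ 2) := by
    have h1 : F '' ball (0 : ℂ) ρ ⊆ closedBall (F 0) R := by
      rintro _ ⟨z, hz, rfl⟩
      rw [mem_closedBall, dist_eq_norm]
      exact hFsize z (by simpa using hz)
    refine (measure_mono h1).trans (le_of_eq ?_)
    rw [Complex.volume_closedBall, ← ENNReal.ofReal_pow hR0, ENNReal.ofReal_mul Real.pi_pos.le,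
      mul_comm]
    congr 1
    rw [← ENNReal.ofReal_coe_nnreal]
    rfl
  -- lower bound
  set q : ℝ := (‖C‖ - ε) ^ 2 - ε ^ 2 with hq
  have hεC : 32 * ε ≤ ‖C‖ := by
    have : ‖C‖ = ε * (16 * m) := by rw [hε]; field_simp
    rw [this]; nlinarith
  have hq0 : 0 < q := by rw [hq]; nlinarith
  have hlow : ENNReal.ofReal (q * (Real.pi * ρ ^ (2 * n + 2) / (n + 1)))
      ≤ ∫⁻ z in ball (0 : ℂ) ρ, ENNReal.ofReal |(dmap (z ^ n * K z) (deriv G z)).det| := by
    rw [← integral_pow_ball n hρ0, ← integral_const_mul, ofReal_integral_eq_lintegral_ofReal]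
    · apply setLIntegral_mono' measurableSet_ball
      intro z hz
      have hz' : ‖z‖ < ρ := by simpa using hz
      have hz'' := hsub z (by linarith)
      apply ENNReal.ofReal_le_ofReal
      rw [dmap_det]
      refine le_trans ?_ (le_abs_self _)
      have k1 : ‖C‖ - ε ≤ ‖K z‖ := by
        have := norm_sub_norm_le C (K z)
        have e : ‖C - K z‖ = ‖K z - C‖ := norm_sub_rev _ _
        linarith [hz''.1]
      rw [norm_mul, norm_pow]
      have k2 : ‖deriv G z‖ ^ 2 ≤ (ε * ‖z‖ ^ n) ^ 2 :=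
        pow_le_pow_left₀ (norm_nonneg _) hz''.2.1 2
      have k3 : (‖z‖ ^ n * (‖C‖ - ε)) ^ 2 ≤ (‖z‖ ^ n * ‖K z‖) ^ 2 := by
        apply pow_le_pow_left₀
        · apply mul_nonneg (by positivity); linarith
        · exact mul_le_mul_of_nonneg_left k1 (by positivity)
      have k4 : q * ‖z‖ ^ (2 * n) = (‖z‖ ^ n * (‖C‖ - ε)) ^ 2 - (ε * ‖z‖ ^ n) ^ 2 := by
        rw [hq, pow_mul', ]; ring
      linarith
    · have hc : Continuous fun z : ℂ => q * ‖z‖ ^ (2 * n) := by fun_prop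
      exact (hc.continuousOn.integrableOn_compact
        (isCompact_closedBall (0 : ℂ) ρ)).mono_set ball_subset_closedBall
    · exact Filter.Eventually.of_forall fun z => by positivity
  have hfin : ENNReal.ofReal (q * (Real.pi * ρ ^ (2 * n + 2) / (n + 1)))
      ≤ ENNReal.ofReal (Real.pi * R ^ 2) := hlow.trans (harea.le.trans himg)
  rw [ENNReal.ofReal_le_ofReal_iff (by positivity)] at hfin
  have h1 : q / m ≤ (‖C‖ / m + 2 * ε) ^ 2 := by
    have e1 : q * (Real.pi * ρ ^ (2 * n + 2) / (n + 1))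
        = (q / m) * (Real.pi * ρ ^ (2 * n + 2)) := by
      rw [hm]; ring
    have e2 : Real.pi * R ^ 2 = (‖C‖ / m + 2 * ε) ^ 2 * (Real.pi * ρ ^ (2 * n + 2)) := by
      rw [hR]; ring
    rw [e1, e2] at hfin
    exact le_of_mul_le_mul_right hfin (by positivity)
  have hCe : ‖C‖ = ε * (16 * m) := by rw [hε]; field_simp
  rw [hq, hCe] at h1
  have h2 : ((ε * (16 * m) - ε) ^ 2 - ε ^ 2) / m = ε ^ 2 * (256 * m - 32) := by
    field_simp; ring
  have h3 : (ε * (16 * m) / m + 2 * ε) ^ 2 = ε ^ 2 * 324 := by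
    field_simp; ring
  rw [h2, h3] at h1
  have h4 : 256 * m - 32 ≤ 324 := le_of_mul_le_mul_left h1 (by positivity)
  linarith

end Pool.Agent.Lib.MP4cd976.Own
end

section
/-!
# MP_4cd976_an, own theorem: the harmonic Koebe map

The harmonic Koebe map `K = H + conj G`,
`H z = (z - z^2/2 + z^3/6)/(1-z)^3`, `G z = (z^2/2 + z^3/6)/(1-z)^3`,
belongs to `S_H^0`, omits the value `-1/6` and is extremal for the distortion and growth bounds.
(Classical example of Clunie and Sheil-Small; file written by helper97.)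
-/
set_option autoImplicit false

namespace Pool.Agent.Lib.MP4cd976.Own.Koebe

open Complex Metric

/-- analytic part -/
noncomputable def H (z : ℂ) : ℂ := (z - z ^ 2 / 2 + z ^ 3 / 6) / (1 - z) ^ 3

/-- co-analytic part -/
noncomputable def G (z : ℂ) : ℂ := (z ^ 2 / 2 + z ^ 3 / 6) / (1 - z) ^ 3

theorem one_sub_ne {z : ℂ} (hz : z ∈ ball (0 : ℂ) 1) : (1 - z) ≠ 0 := by
  intro h
  have h1 : z = 1 := (sub_eq_zero.mp h).symm
  rw [mem_ball_zero_iff, h1] at hz
  simp at hz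

theorem one_add_ne {z : ℂ} (hz : z ∈ ball (0 : ℂ) 1) : (1 + z) ≠ 0 := by
  intro h
  have h1 : z = -1 := by linear_combination h
  rw [mem_ball_zero_iff, h1] at hz
  simp at hz

theorem hasDerivAt_H {z : ℂ} (hz : z ∈ ball (0 : ℂ) 1) :
    HasDerivAt H ((1 + z) / (1 - z) ^ 4) z := by
  have hne := one_sub_ne hz
  have hne3 : (1 - z) ^ 3 ≠ 0 := pow_ne_zero _ hne
  have h1 : HasDerivAt (fun z : ℂ => z - z ^ 2 / 2 + z ^ 3 / 6)
      (1 - (2 : ℕ) * z ^ 1 / 2 + (3 : ℕ) * z ^ 2 / 6) z :=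
    ((hasDerivAt_id' z).sub ((hasDerivAt_pow 2 z).div_const 2)).add
      ((hasDerivAt_pow 3 z).div_const 6)
  have h2 : HasDerivAt (fun z : ℂ => (1 - z) ^ 3) ((3 : ℕ) * (1 - z) ^ 2 * (-1)) z := by
    have := HasDerivAt.fun_pow ((hasDerivAt_id' z).const_sub (1 : ℂ)) 3
    simpa using this
  have h3 := h1.div h2 hne3
  refine h3.congr_deriv ?_
  field_simp
  push_cast
  ring

theorem hasDerivAt_G {z : ℂ} (hz : z ∈ ball (0 : ℂ) 1) :
    HasDerivAt G (z * (1 + z) / (1 - z) ^ 4) z := by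
  have hne := one_sub_ne hz
  have hne3 : (1 - z) ^ 3 ≠ 0 := pow_ne_zero _ hne
  have h1 : HasDerivAt (fun z : ℂ => z ^ 2 / 2 + z ^ 3 / 6)
      ((2 : ℕ) * z ^ 1 / 2 + (3 : ℕ) * z ^ 2 / 6) z :=
    ((hasDerivAt_pow 2 z).div_const 2).add ((hasDerivAt_pow 3 z).div_const 6)
  have h2 : HasDerivAt (fun z : ℂ => (1 - z) ^ 3) ((3 : ℕ) * (1 - z) ^ 2 * (-1)) z := by
    have := HasDerivAt.fun_pow ((hasDerivAt_id' z).const_sub (1 : ℂ)) 3
    simpa using this
  have h3 := h1.div h2 hne3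
  refine h3.congr_deriv ?_
  field_simp
  push_cast
  ring

/-- `H + G = (w^3 - 1)/6`, `w = (1+z)/(1-z)` -/
theorem H_add_G {z : ℂ} (hz : z ∈ ball (0 : ℂ) 1) :
    H z + G z = (((1 + z) / (1 - z)) ^ 3 - 1) / 6 := by
  have hne := one_sub_ne hz
  unfold H G
  field_simp
  ring

/-- `H - G = (w^2 - 1)/4` -/
theorem H_sub_G {z : ℂ} (hz : z ∈ ball (0 : ℂ) 1) :
    H z - G z = (((1 + z) / (1 - z)) ^ 2 - 1) / 4 := by
  have hne := one_sub_ne hz
  unfold H G
  field_simp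
  ring

theorem re_w_pos {z : ℂ} (hz : z ∈ ball (0 : ℂ) 1) : 0 < ((1 + z) / (1 - z)).re := by
  have hne := one_sub_ne hz
  rw [mem_ball_zero_iff] at hz
  have hn : 0 < normSq (1 - z) := normSq_pos.mpr hne
  rw [div_re]
  have h1 : (1 + z).re * (1 - z).re / normSq (1 - z) + (1 + z).im * (1 - z).im / normSq (1 - z)
      = (1 - normSq z) / normSq (1 - z) := by
    rw [← add_div]
    congr 1
    simp [normSq_apply]
    ring
  rw [h1]
  apply div_pos _ hn
  have h2 : normSq z = ‖z‖ ^ 2 := normSq_eq_norm_sq z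
  rw [h2]
  nlinarith [norm_nonneg z]

theorem re_K {z : ℂ} (hz : z ∈ ball (0 : ℂ) 1) :
    (H z + starRingEnd ℂ (G z)).re
      = (((1 + z) / (1 - z)).re ^ 3 - 3 * ((1 + z) / (1 - z)).re * ((1 + z) / (1 - z)).im ^ 2 - 1)
        / 6 := by
  have h1 : (H z + starRingEnd ℂ (G z)).re = (H z + G z).re := by simp
  rw [h1, H_add_G hz]
  generalize (1 + z) / (1 - z) = w
  have : ((w ^ 3 - 1) / 6).re = (w ^ 3 - 1).re / 6 := by
    rw [show (6 : ℂ) = ((6 : ℝ) : ℂ) by norm_num, div_ofReal_re]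
  rw [this]
  simp [pow_succ]
  ring

theorem im_K {z : ℂ} (hz : z ∈ ball (0 : ℂ) 1) :
    (H z + starRingEnd ℂ (G z)).im
      = ((1 + z) / (1 - z)).re * ((1 + z) / (1 - z)).im / 2 := by
  have h1 : (H z + starRingEnd ℂ (G z)).im = (H z - G z).im := by simp [sub_eq_add_neg]
  rw [h1, H_sub_G hz]
  generalize (1 + z) / (1 - z) = w
  have : ((w ^ 2 - 1) / 4).im = (w ^ 2 - 1).im / 4 := by
    rw [show (4 : ℂ) = ((4 : ℝ) : ℂ) by norm_num, div_ofReal_im]
  rw [this]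
  simp [pow_succ]
  ring

/-- the real system is injective on the right half plane -/
theorem real_inj {u v u' v' : ℝ} (hu : 0 < u) (hu' : 0 < u')
    (h1 : u ^ 3 - 3 * u * v ^ 2 = u' ^ 3 - 3 * u' * v' ^ 2) (h2 : u * v = u' * v') :
    u = u' ∧ v = v' := by
  have key : ∀ a b s : ℝ, 0 < a → 0 < b → a < b →
      a ^ 4 - 3 * s ^ 2 < (b ^ 4 - 3 * s ^ 2) ∧ 0 < b - a := by
    intro a b s ha hb hab
    refine ⟨?_, by linarith⟩
    have : a ^ 4 < b ^ 4 := pow_lt_pow_left₀ hab ha.le (by norm_num)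
    linarith
  -- multiply the first equation by `u u'`
  have h3 : u' * (u ^ 4 - 3 * (u * v) ^ 2) = u * (u' ^ 4 - 3 * (u * v) ^ 2) := by
    have e1 : u' * (u ^ 4 - 3 * (u * v) ^ 2) = u * u' * (u ^ 3 - 3 * u * v ^ 2) := by ring
    have e2 : u * (u' ^ 4 - 3 * (u * v) ^ 2) = u * u' * (u' ^ 3 - 3 * u' * v' ^ 2) := by
      rw [h2]; ring
    rw [e1, e2, h1]
  have h4 : (u - u') * (u * u' * (u ^ 2 + u * u' + u' ^ 2) + 3 * (u * v) ^ 2) = 0 := by
    linear_combination h3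
  have h5 : 0 < u * u' * (u ^ 2 + u * u' + u' ^ 2) + 3 * (u * v) ^ 2 := by positivity
  have h6 : u = u' := by
    rcases mul_eq_zero.mp h4 with h | h
    · linarith
    · linarith
  refine ⟨h6, ?_⟩
  subst h6
  exact mul_left_cancel₀ hu.ne' h2

theorem injOn_K : Set.InjOn (fun z => H z + starRingEnd ℂ (G z)) (ball (0 : ℂ) 1) := by
  intro z hz z' hz' heq
  simp only at heq
  have hre := congrArg Complex.re heq
  have him := congrArg Complex.im heq
  rw [re_K hz, re_K hz'] at hre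
  rw [im_K hz, im_K hz'] at him
  have hw := real_inj (v := ((1 + z) / (1 - z)).im) (v' := ((1 + z') / (1 - z')).im)
    (re_w_pos hz) (re_w_pos hz') (by linarith) (by linarith)
  have hw' : (1 + z) / (1 - z) = (1 + z') / (1 - z') := Complex.ext hw.1 hw.2
  have hne := one_sub_ne hz
  have hne' := one_sub_ne hz'
  rw [div_eq_div_iff hne hne'] at hw'
  linear_combination hw' / 2

theorem omits {z : ℂ} (hz : z ∈ ball (0 : ℂ) 1) : H z + starRingEnd ℂ (G z) ≠ -(1 / 6) := by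
  intro heq
  have hre := congrArg Complex.re heq
  have him := congrArg Complex.im heq
  rw [re_K hz] at hre
  rw [im_K hz] at him
  have hu := re_w_pos hz
  have r1 : (-(1 / 6) : ℂ).re = -(1 / 6) := by
    rw [show (-(1 / 6) : ℂ) = ((-(1 / 6) : ℝ) : ℂ) by push_cast; ring, ofReal_re]
  have r2 : (-(1 / 6) : ℂ).im = 0 := by
    rw [show (-(1 / 6) : ℂ) = ((-(1 / 6) : ℝ) : ℂ) by push_cast; ring, ofReal_im]
  rw [r1] at hre
  rw [r2] at him
  set u := ((1 + z) / (1 - z)).re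
  set v := ((1 + z) / (1 - z)).im
  have hv : v = 0 := by
    have : u * v = 0 := by linarith
    rcases mul_eq_zero.mp this with h | h
    · exact absurd h hu.ne'
    · exact h
  rw [hv] at hre
  have h3 : u ^ 3 = 0 := by nlinarith
  exact absurd h3 (pow_ne_zero 3 hu.ne')

theorem deriv_H {z : ℂ} (hz : z ∈ ball (0 : ℂ) 1) : deriv H z = (1 + z) / (1 - z) ^ 4 :=
  (hasDerivAt_H hz).deriv

theorem deriv_G {z : ℂ} (hz : z ∈ ball (0 : ℂ) 1) : deriv G z = z * (1 + z) / (1 - z) ^ 4 :=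
  (hasDerivAt_G hz).deriv

theorem H_zero : H 0 = 0 := by simp [H]

theorem G_zero : G 0 = 0 := by simp [G]

theorem zero_mem : (0 : ℂ) ∈ ball (0 : ℂ) 1 := mem_ball_self one_pos

theorem deriv_H_zero : deriv H 0 = 1 := by rw [deriv_H zero_mem]; simp

theorem deriv_G_zero : deriv G 0 = 0 := by rw [deriv_G zero_mem]; simp

theorem sense {z : ℂ} (hz : z ∈ ball (0 : ℂ) 1) : ‖deriv G z‖ < ‖deriv H z‖ := by
  rw [deriv_H hz, deriv_G hz]
  have e : z * (1 + z) / (1 - z) ^ 4 = z * ((1 + z) / (1 - z) ^ 4) := by ring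
  rw [e, norm_mul]
  have hp : 0 < ‖(1 + z) / (1 - z) ^ 4‖ :=
    norm_pos_iff.mpr (div_ne_zero (one_add_ne hz) (pow_ne_zero _ (one_sub_ne hz)))
  have hz1 : ‖z‖ < 1 := mem_ball_zero_iff.mp hz
  nlinarith

theorem real_mem {t : ℝ} (h1 : -1 < t) (h2 : t < 1) : (t : ℂ) ∈ ball (0 : ℂ) 1 := by
  rw [mem_ball_zero_iff, Complex.norm_real, Real.norm_eq_abs]
  exact abs_lt.mpr ⟨h1, h2⟩

theorem norm_deriv_H_real {t : ℝ} (h1 : -1 < t) (h2 : t < 1) :
    ‖deriv H (t : ℂ)‖ = (1 + t) / (1 - t) ^ 4 := by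
  rw [deriv_H (real_mem h1 h2)]
  have : (1 + (t : ℂ)) / (1 - t) ^ 4 = (((1 + t) / (1 - t) ^ 4 : ℝ) : ℂ) := by push_cast; ring
  rw [this, Complex.norm_real, Real.norm_eq_abs, abs_of_nonneg]
  have : 0 ≤ 1 + t := by linarith
  positivity

theorem norm_deriv_G_real {t : ℝ} (h1 : -1 < t) (h2 : t < 1) :
    ‖deriv G (t : ℂ)‖ = |t| * ((1 + t) / (1 - t) ^ 4) := by
  rw [deriv_G (real_mem h1 h2)]
  have : (t : ℂ) * (1 + (t : ℂ)) / (1 - t) ^ 4 = ((t * ((1 + t) / (1 - t) ^ 4) : ℝ) : ℂ) := by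
    push_cast; ring
  rw [this, Complex.norm_real, Real.norm_eq_abs, abs_mul]
  congr 1
  rw [abs_of_nonneg]
  have : 0 ≤ 1 + t := by linarith
  positivity

/-- value on the real axis -/
theorem K_real {t : ℝ} (h1 : -1 < t) (h2 : t < 1) :
    H (t : ℂ) + starRingEnd ℂ (G (t : ℂ)) = (((((1 + t) / (1 - t)) ^ 3 - 1) / 6 : ℝ) : ℂ) := by
  have hm := real_mem h1 h2
  have hG : starRingEnd ℂ (G (t : ℂ)) = G (t : ℂ) := by
    have e : G (t : ℂ) = (((t ^ 2 / 2 + t ^ 3 / 6) / (1 - t) ^ 3 : ℝ) : ℂ) := by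
      unfold G; push_cast; ring
    rw [e, Complex.conj_ofReal]
  rw [hG, H_add_G hm]
  push_cast
  ring

end Pool.Agent.Lib.MP4cd976.Own.Koebe
end

section
/-!
# MP_4cd976_an, own theorem: an injective harmonic map with `J_f ≥ 0` has `J_f > 0`
-/
set_option autoImplicit false

open Complex Metric Set Filter Topology

namespace Pool.Agent.Lib.MP4cd976.Own

/-- The extended second dilatation. -/
noncomputable def dil (P Q : ℂ → ℂ) (z : ℂ) : ℂ := limUnder (𝓝[≠] z) (fun w => Q w / P w)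

section

variable {P Q : ℂ → ℂ}

lemma punctured (hP : DifferentiableOn ℂ P (ball 0 1)) (hP0 : P 0 ≠ 0) {z₀ : ℂ}
    (hz₀ : z₀ ∈ ball (0 : ℂ) 1) : ∀ᶠ z in 𝓝[≠] z₀, P z ≠ 0 := by
  have han : AnalyticOnNhd ℂ P (ball 0 1) := hP.analyticOnNhd isOpen_ball
  rcases (han z₀ hz₀).eventually_eq_zero_or_eventually_ne_zero with h | h
  · exfalso
    have := han.eqOn_zero_of_preconnected_of_eventuallyEq_zero
      (convex_ball (0 : ℂ) 1).isPreconnected hz₀ h
    exact hP0 (this (by simp))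
  · exact h

lemma dil_eq (hP : DifferentiableOn ℂ P (ball 0 1)) (hQ : DifferentiableOn ℂ Q (ball 0 1))
    {z : ℂ} (hz : z ∈ ball (0 : ℂ) 1) (hPz : P z ≠ 0) : dil P Q z = Q z / P z := by
  have hc : ContinuousAt (fun w => Q w / P w) z :=
    (hQ.differentiableAt (isOpen_ball.mem_nhds hz)).continuousAt.div
      (hP.differentiableAt (isOpen_ball.mem_nhds hz)).continuousAt hPz
  exact (hc.tendsto.mono_left nhdsWithin_le_nhds).limUnder_eq

lemma dil_differentiableAt (hP : DifferentiableOn ℂ P (ball 0 1))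
    (hQ : DifferentiableOn ℂ Q (ball 0 1)) (hP0 : P 0 ≠ 0)
    (hPQ : ∀ z ∈ ball (0 : ℂ) 1, ‖Q z‖ ≤ ‖P z‖) {z₀ : ℂ} (hz₀ : z₀ ∈ ball (0 : ℂ) 1) :
    DifferentiableAt ℂ (dil P Q) z₀ := by
  have h1 := punctured hP hP0 hz₀
  rw [eventually_nhdsWithin_iff] at h1
  obtain ⟨d, hd, hd'⟩ := Metric.eventually_nhds_iff_ball.mp (h1.and (isOpen_ball.mem_nhds hz₀))
  have hs : ball z₀ d ∈ 𝓝 z₀ := ball_mem_nhds z₀ hd
  have hne : ∀ z ∈ ball z₀ d \ {z₀}, z ∈ ball (0 : ℂ) 1 ∧ P z ≠ 0 := fun z hz =>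
    ⟨(hd' z hz.1).2, (hd' z hz.1).1 hz.2⟩
  have h2 : DifferentiableOn ℂ (fun w => Q w / P w) (ball z₀ d \ {z₀}) := by
    intro z hz
    exact ((hQ.differentiableAt (isOpen_ball.mem_nhds (hne z hz).1)).div
      (hP.differentiableAt (isOpen_ball.mem_nhds (hne z hz).1)) (hne z hz).2).differentiableWithinAt
  have h3 : BddAbove (norm ∘ (fun w => Q w / P w) '' (ball z₀ d \ {z₀})) := by
    refine ⟨1, ?_⟩
    rintro _ ⟨z, hz, rfl⟩
    simp only [Function.comp_apply, norm_div]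
    exact div_le_one_of_le₀ (hPQ z (hne z hz).1) (norm_nonneg _)
  have h4 := Complex.differentiableOn_update_limUnder_of_bddAbove hs h2 h3
  have h5 : EqOn (dil P Q) (Function.update (fun w => Q w / P w) z₀
      (limUnder (𝓝[≠] z₀) (fun w => Q w / P w))) (ball z₀ d) := by
    intro z hz
    by_cases hzz : z = z₀
    · subst hzz; simp [dil]
    · rw [Function.update_of_ne hzz]
      exact dil_eq hP hQ (hne z ⟨hz, hzz⟩).1 (hne z ⟨hz, hzz⟩).2
  exact (h4.congr h5).differentiableAt hs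

lemma dil_norm_le (hP : DifferentiableOn ℂ P (ball 0 1))
    (hQ : DifferentiableOn ℂ Q (ball 0 1)) (hP0 : P 0 ≠ 0)
    (hPQ : ∀ z ∈ ball (0 : ℂ) 1, ‖Q z‖ ≤ ‖P z‖) {z₀ : ℂ} (hz₀ : z₀ ∈ ball (0 : ℂ) 1) :
    ‖dil P Q z₀‖ ≤ 1 := by
  have hc : Tendsto (fun z => ‖dil P Q z‖) (𝓝[≠] z₀) (𝓝 ‖dil P Q z₀‖) :=
    ((dil_differentiableAt hP hQ hP0 hPQ hz₀).continuousAt.norm.tendsto).mono_left
      nhdsWithin_le_nhds
  refine le_of_tendsto hc ?_
  filter_upwards [punctured hP hP0 hz₀, mem_nhdsWithin_of_mem_nhds (isOpen_ball.mem_nhds hz₀)]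
    with z h1 h2
  rw [dil_eq hP hQ h2 h1, norm_div]
  exact div_le_one_of_le₀ (hPQ z h2) (norm_nonneg _)

lemma dil_mul (hP : DifferentiableOn ℂ P (ball 0 1))
    (hQ : DifferentiableOn ℂ Q (ball 0 1))
    (hPQ : ∀ z ∈ ball (0 : ℂ) 1, ‖Q z‖ ≤ ‖P z‖) {z : ℂ} (hz : z ∈ ball (0 : ℂ) 1) :
    Q z = dil P Q z * P z := by
  by_cases h : P z = 0
  · have := hPQ z hz
    rw [h, norm_zero] at this
    rw [h, mul_zero]
    exact norm_le_zero_iff.mp this
  · rw [dil_eq hP hQ hz h]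
    field_simp

lemma dil_norm_lt (hP : DifferentiableOn ℂ P (ball 0 1))
    (hQ : DifferentiableOn ℂ Q (ball 0 1)) (hP0 : P 0 ≠ 0) (hQ0 : Q 0 = 0)
    (hPQ : ∀ z ∈ ball (0 : ℂ) 1, ‖Q z‖ ≤ ‖P z‖) {z₀ : ℂ} (hz₀ : z₀ ∈ ball (0 : ℂ) 1) :
    ‖dil P Q z₀‖ < 1 := by
  refine lt_of_le_of_ne (dil_norm_le hP hQ hP0 hPQ hz₀) fun h => ?_
  have h0 : (0 : ℂ) ∈ ball (0 : ℂ) 1 := by simp
  have h1 := Complex.norm_eqOn_of_isPreconnected_of_isMaxOn (f := dil P Q)
    (convex_ball (0 : ℂ) 1).isPreconnected isOpen_ball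
    (fun z hz => (dil_differentiableAt hP hQ hP0 hPQ hz).differentiableWithinAt) hz₀
    (fun z hz => by
      simp only [mem_ofPred_eq, Function.comp_apply]
      rw [h]; exact dil_norm_le hP hQ hP0 hPQ hz)
  have h2 := h1 h0
  simp only [Function.comp_apply, Function.const_apply] at h2
  rw [dil_eq hP hQ h0 hP0, hQ0, zero_div, norm_zero, h] at h2
  norm_num at h2

end

/-- **Lewy's theorem in the form needed**: an injective harmonic map with nonnegative Jacobian has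
positive Jacobian. -/
theorem jacobian_pos {h g : ℂ → ℂ} (hd : DifferentiableOn ℂ h (ball 0 1))
    (gd : DifferentiableOn ℂ g (ball 0 1)) (h1 : deriv h 0 ≠ 0) (g1 : deriv g 0 = 0)
    (hJ : ∀ z ∈ ball (0 : ℂ) 1, ‖deriv g z‖ ≤ ‖deriv h z‖)
    (hinj : InjOn (fun z => h z + (starRingEnd ℂ) (g z)) (ball (0 : ℂ) 1)) :
    ∀ z ∈ ball (0 : ℂ) 1, ‖deriv g z‖ < ‖deriv h z‖ := by
  have hP : DifferentiableOn ℂ (deriv h) (ball 0 1) := hd.deriv isOpen_ball
  have hQ : DifferentiableOn ℂ (deriv g) (ball 0 1) := gd.deriv isOpen_ball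
  set Ω : ℂ → ℂ := dil (deriv h) (deriv g) with hΩ
  have hΩd : ∀ z ∈ ball (0 : ℂ) 1, DifferentiableAt ℂ Ω z := fun z hz =>
    dil_differentiableAt hP hQ h1 hJ hz
  have hΩm : ∀ z ∈ ball (0 : ℂ) 1, deriv g z = Ω z * deriv h z := fun z hz =>
    dil_mul hP hQ hJ hz
  have hΩ1 : ∀ z ∈ ball (0 : ℂ) 1, ‖Ω z‖ < 1 := fun z hz => dil_norm_lt hP hQ h1 g1 hJ hz
  -- h' has no zero
  have hne : ∀ z₀ ∈ ball (0 : ℂ) 1, deriv h z₀ ≠ 0 := by
    intro z₀ hz₀
    have han : AnalyticAt ℂ (deriv h) z₀ := (hP.analyticOnNhd isOpen_ball) z₀ hz₀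
    have hnz : ¬ ∀ᶠ z in 𝓝 z₀, deriv h z = 0 := by
      intro h'
      have := (hP.analyticOnNhd isOpen_ball).eqOn_zero_of_preconnected_of_eventuallyEq_zero
        (convex_ball (0 : ℂ) 1).isPreconnected hz₀ h'
      exact h1 (this (by simp))
    obtain ⟨n, k, hk, hk0, hfac⟩ := han.exists_eventuallyEq_pow_smul_nonzero_iff.mpr hnz
    obtain ⟨δ, hδ, hδ'⟩ := Metric.eventually_nhds_iff_ball.mp
      (hfac.and (isOpen_ball.mem_nhds hz₀))
    set b : ℂ := Ω z₀ with hb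
    have hb1 : ‖b‖ < 1 := hΩ1 z₀ hz₀
    have hmem : ∀ w ∈ ball (0 : ℂ) δ, z₀ + w ∈ ball z₀ δ := by
      intro w hw
      rw [mem_ball, dist_eq_norm] at *
      simpa using hw
    have hmem1 : ∀ w ∈ ball (0 : ℂ) δ, z₀ + w ∈ ball (0 : ℂ) 1 := fun w hw =>
      (hδ' _ (hmem w hw)).2
    have hshift : ∀ w : ℂ, HasDerivAt (fun w : ℂ => z₀ + w) 1 w := fun w =>
      (hasDerivAt_id w).const_add z₀
    have hhd : ∀ w ∈ ball (0 : ℂ) δ, HasDerivAt (fun w => h (z₀ + w)) (deriv h (z₀ + w)) w := by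
      intro w hw
      have := (hd.differentiableAt (isOpen_ball.mem_nhds (hmem1 w hw))).hasDerivAt.comp w (hshift w)
      rw [mul_one] at this
      exact this
    have hgd : ∀ w ∈ ball (0 : ℂ) δ, HasDerivAt (fun w => g (z₀ + w)) (deriv g (z₀ + w)) w := by
      intro w hw
      have := (gd.differentiableAt (isOpen_ball.mem_nhds (hmem1 w hw))).hasDerivAt.comp w (hshift w)
      rw [mul_one] at this
      exact this
    have hGd : ∀ w ∈ ball (0 : ℂ) δ, HasDerivAt (fun w => g (z₀ + w) - b * h (z₀ + w))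
        ((Ω (z₀ + w) - b) * deriv h (z₀ + w)) w := by
      intro w hw
      refine ((hgd w hw).sub ((hhd w hw).const_mul b)).congr_deriv ?_
      rw [hΩm _ (hmem1 w hw)]; ring
    have hcont : ContinuousAt (fun w : ℂ => z₀ + w) 0 := by fun_prop
    have hΩc : ContinuousAt (fun w : ℂ => Ω (z₀ + w)) 0 := by
      apply ContinuousAt.comp (g := Ω) _ hcont
      simpa using (hΩd z₀ hz₀).continuousAt
    have hkc : ContinuousAt (fun w : ℂ => k (z₀ + w)) 0 := by
      apply ContinuousAt.comp (g := k) _ hcont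
      simpa using hk.continuousAt
    have hn := order_eq_zero (H := fun w => h (z₀ + w) - (starRingEnd ℂ) b * g (z₀ + w))
      (G := fun w => g (z₀ + w) - b * h (z₀ + w))
      (K := fun w => k (z₀ + w) * (1 - (starRingEnd ℂ) b * Ω (z₀ + w))) (n := n) hδ
      (by
        intro w hw
        refine ((hhd w hw).sub ((hgd w hw).const_mul ((starRingEnd ℂ) b))).congr_deriv ?_
        rw [hΩm _ (hmem1 w hw), (hδ' _ (hmem w hw)).1]
        simp only [add_sub_cancel_left, smul_eq_mul]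
        ring)
      (fun w hw => (hGd w hw).differentiableAt.differentiableWithinAt)
      (hkc.mul (continuousAt_const.sub (continuousAt_const.mul hΩc)))
      (by
        simp only [add_zero]
        refine mul_ne_zero hk0 ?_
        rw [← hb, mul_comm, Complex.mul_conj, Complex.normSq_eq_norm_sq]
        have : (1 : ℝ) - ‖b‖ ^ 2 ≠ 0 := by nlinarith [norm_nonneg b]
        exact_mod_cast this)
      (by
        intro ε hε
        have h2 : ContinuousAt (fun w : ℂ => ‖Ω (z₀ + w) - b‖ * ‖k (z₀ + w)‖) 0 :=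
          ((hΩc.sub continuousAt_const).norm).mul hkc.norm
        have h3 : ∀ᶠ w in 𝓝 (0 : ℂ), ‖Ω (z₀ + w) - b‖ * ‖k (z₀ + w)‖ < ε := by
          apply h2.eventually (gt_mem_nhds _)
          have e0 : ‖Ω (z₀ + 0) - b‖ * ‖k (z₀ + 0)‖ < ε := by
            rw [add_zero, ← hb, sub_self, norm_zero, zero_mul]
            exact hε
          exact e0
        filter_upwards [h3, ball_mem_nhds (0 : ℂ) hδ] with w hw1 hw2
        rw [(hGd w hw2).deriv, (hδ' _ (hmem w hw2)).1]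
        simp only [add_sub_cancel_left, smul_eq_mul, norm_mul, norm_pow]
        have : 0 ≤ ‖w‖ ^ n := by positivity
        nlinarith)
      (by
        intro w hw v hv hwv
        have e : ∀ w : ℂ, (h (z₀ + w) - (starRingEnd ℂ) b * g (z₀ + w)) +
            (starRingEnd ℂ) (g (z₀ + w) - b * h (z₀ + w))
            = (h (z₀ + w) + (starRingEnd ℂ) (g (z₀ + w)))
              - (starRingEnd ℂ) b * (starRingEnd ℂ) (h (z₀ + w) + (starRingEnd ℂ) (g (z₀ + w))) := by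
          intro w
          simp only [map_sub, map_mul, map_add, Complex.conj_conj]
          ring
        simp only [e] at hwv
        set X := h (z₀ + w) + (starRingEnd ℂ) (g (z₀ + w))
        set Y := h (z₀ + v) + (starRingEnd ℂ) (g (z₀ + v))
        have h2 : X - Y = (starRingEnd ℂ) b * (starRingEnd ℂ) (X - Y) := by
          rw [map_sub]; linear_combination hwv
        have h3 : ‖X - Y‖ = ‖b‖ * ‖X - Y‖ := by
          conv_lhs => rw [h2]
          rw [norm_mul, RCLike.norm_conj, RCLike.norm_conj]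
        have h4 : X = Y := by
          have : (1 - ‖b‖) * ‖X - Y‖ = 0 := by linarith
          rcases mul_eq_zero.mp this with h' | h'
          · linarith
          · exact sub_eq_zero.mp (norm_eq_zero.mp h')
        have h5 := hinj (hmem1 w hw) (hmem1 v hv) h4
        simpa using h5)
    have h2 := (hδ' z₀ (mem_ball_self hδ)).1
    rw [hn] at h2
    simp only [sub_self, pow_zero, one_smul] at h2
    rw [h2]; exact hk0
  intro z hz
  rw [hΩm z hz, norm_mul]
  have := norm_pos_iff.mpr (hne z hz)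
  nlinarith [hΩ1 z hz]

end Pool.Agent.Lib.MP4cd976.Own
end
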