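import Mathlib

/-!
# MP_4cd976_an, own theorem: the class `S_H^0` as in the problem text
-/

set_option autoImplicit false

open Complex Metric Set

namespace Pool.Agent.Lib.MP4cd976.Own

/-- `h + conj g` belongs to the class `S_H^0` of the problem: `h`, `g` analytic in the unit disk,
`h(0) = 0`, `h'(0) = 1`, `g(0) = g'(0) = 0`, Jacobian `|h'|² - |g'|² ≥ 0`, and `h + conj g`
injective in the unit disk. -/
structure SH0 (h g : ℂ → ℂ) : Prop where
  hd : DifferentiableOn ℂ h (ball 0 1)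
  gd : DifferentiableOn ℂ g (ball 0 1)
  h0 : h 0 = 0
  h1 : deriv h 0 = 1
  g0 : g 0 = 0
  g1 : deriv g 0 = 0
  jac : ∀ z ∈ ball (0 : ℂ) 1, 0 ≤ ‖deriv h z‖ ^ 2 - ‖deriv g z‖ ^ 2
  inj : InjOn (fun z => h z + (starRingEnd ℂ) (g z)) (ball (0 : ℂ) 1)

end Pool.Agent.Lib.MP4cd976.Own
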