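import Pool.Agent.Lib.MP_4cd976_an.E.Cover
import Pool.Agent.Lib.MP_4cd976_an.Own.Defs
import Pool.Agent.Lib.MP_4cd976_an.Own.Lewy
import Pool.Agent.Lib.MP_4cd976_an.DN.ApxFinal

section
/-!
# MP_4cd976_an, own theorem: upper distortion, growth, covering of discs of every radius
-/
set_option autoImplicit false

open Complex Metric Set Filter Topology

namespace Pool.Agent.Lib.MP4cd976.Own

open Pool.Agent.Lib.MP4cd976.E

private lemma diffAt_of {f : ℂ → ℂ} (hf : DifferentiableOn ℂ f (ball 0 1)) {z : ℂ}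
    (hz : z ∈ ball (0 : ℂ) 1) : DifferentiableAt ℂ f z :=
  hf.differentiableAt (isOpen_ball.mem_nhds hz)

/-- Radial growth of an analytic function whose logarithmic derivative satisfies the pointwise
second coefficient bound. -/
theorem radial_growth_upper {K : ℂ → ℂ} (hK : DifferentiableOn ℂ K (ball 0 1))
    (hb : ∀ a : ℂ, ‖a‖ < 1 → ‖((1 : ℂ) - a * (starRingEnd ℂ) a) * deriv K a
      - 2 * (starRingEnd ℂ) a * K a‖ ≤ 6 * ‖K a‖)
    {z : ℂ} (hz : ‖z‖ < 1) :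
    ‖K z‖ ≤ ‖K 0‖ * ((1 + ‖z‖) ^ 2 / (1 - ‖z‖) ^ 4) := by
  -- direction
  obtain ⟨e, he, hze⟩ : ∃ e : ℂ, ‖e‖ = 1 ∧ z = (‖z‖ : ℂ) * e := by
    by_cases h0 : z = 0
    · exact ⟨1, by simp, by simp [h0]⟩
    · refine ⟨z / ‖z‖, ?_, ?_⟩
      · rw [norm_div]; simp [h0]
      · have : (‖z‖ : ℂ) ≠ 0 := by simpa using h0
        field_simp
  set R : ℝ := ‖z‖ with hR
  have hR0 : 0 ≤ R := norm_nonneg z
  have hmem : ∀ r : ℝ, r ∈ Icc (0 : ℝ) R → ‖(r : ℂ) * e‖ < 1 := by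
    intro r hr
    rw [norm_mul, he, mul_one, Complex.norm_real, Real.norm_eq_abs, abs_of_nonneg hr.1]
    linarith [hr.2]
  -- derivative of r ↦ normSq (K (r e))
  have hder : ∀ r : ℝ, r ∈ Icc (0 : ℝ) R →
      HasDerivAt (fun r : ℝ => normSq (K ((r : ℂ) * e)))
        (2 * ((starRingEnd ℂ) (K ((r : ℂ) * e)) * (e * deriv K ((r : ℂ) * e))).re) r := by
    intro r hr
    have h1 : HasDerivAt K (deriv K ((r : ℂ) * e)) ((r : ℂ) * e) :=
      (diffAt_of hK (by simpa using hmem r hr)).hasDerivAt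
    have h2 : HasDerivAt (fun r : ℝ => ((r : ℂ) * e)) e r := by
      simpa using (Complex.ofRealCLM.hasDerivAt (x := r)).mul_const e
    have h3 : HasDerivAt (fun r : ℝ => K ((r : ℂ) * e)) (deriv K ((r : ℂ) * e) * e) r :=
      HasDerivAt.comp_of_eq r h1 h2 rfl
    have hre : HasDerivAt (fun r : ℝ => (K ((r : ℂ) * e)).re)
        (deriv K ((r : ℂ) * e) * e).re r :=
      (Complex.reCLM.hasFDerivAt.comp_hasDerivAt r h3)
    have him : HasDerivAt (fun r : ℝ => (K ((r : ℂ) * e)).im)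
        (deriv K ((r : ℂ) * e) * e).im r :=
      (Complex.imCLM.hasFDerivAt.comp_hasDerivAt r h3)
    have h4 := (hre.mul hre).add (him.mul him)
    refine (h4.congr_deriv ?_)
    simp only [Complex.mul_re, Complex.mul_im, Complex.conj_re, Complex.conj_im]
    ring
  -- differential inequality
  have hineq : ∀ r : ℝ, r ∈ Icc (0 : ℝ) R →
      (1 - r ^ 2) *
        (2 * ((starRingEnd ℂ) (K ((r : ℂ) * e)) * (e * deriv K ((r : ℂ) * e))).re)
        ≤ (2 * (2 * r + 6)) * normSq (K ((r : ℂ) * e)) := by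
    intro r hr
    set a : ℂ := (r : ℂ) * e with ha
    have h1 := hb a (hmem r hr)
    have hee : e * (starRingEnd ℂ) e = 1 := by
      rw [Complex.mul_conj, Complex.normSq_eq_norm_sq, he]; simp
    have haa : a * (starRingEnd ℂ) a = ((r ^ 2 : ℝ) : ℂ) := by
      rw [ha]; simp only [map_mul, Complex.conj_ofReal]; push_cast
      linear_combination (r : ℂ) ^ 2 * hee
    -- X = conj K * e * (...)
    have h2 : (starRingEnd ℂ) (K a) * e * (((1 : ℂ) - a * (starRingEnd ℂ) a) * deriv K a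
        - 2 * (starRingEnd ℂ) a * K a)
        = ((1 - r ^ 2 : ℝ) : ℂ) * ((starRingEnd ℂ) (K a) * (e * deriv K a))
          - ((2 * r * normSq (K a) : ℝ) : ℂ) := by
      rw [haa]
      have hKK : K a * (starRingEnd ℂ) (K a) = (normSq (K a) : ℂ) := Complex.mul_conj _
      have hca : e * (starRingEnd ℂ) a = (r : ℂ) := by
        rw [ha]; simp only [map_mul, Complex.conj_ofReal]
        linear_combination (r : ℂ) * hee
      push_cast
      linear_combination (-2 * K a * (starRingEnd ℂ) (K a)) * hca - 2 * (r : ℂ) * hKK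
    have h3 : |((starRingEnd ℂ) (K a) * e * (((1 : ℂ) - a * (starRingEnd ℂ) a) * deriv K a
        - 2 * (starRingEnd ℂ) a * K a)).re| ≤ 6 * normSq (K a) := by
      refine (Complex.abs_re_le_norm _).trans ?_
      rw [norm_mul, norm_mul, RCLike.norm_conj, he, mul_one, Complex.normSq_eq_norm_sq]
      nlinarith [norm_nonneg (K a)]
    rw [h2] at h3
    have h4 := (abs_le.mp h3).2
    rw [Complex.sub_re, Complex.re_ofReal_mul, Complex.ofReal_re] at h4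
    linarith
  -- antitone function
  have hmono : AntitoneOn (fun r : ℝ => normSq (K ((r : ℂ) * e)) * ((1 - r) ^ 8 / (1 + r) ^ 4))
      (Icc 0 R) := by
    have hd : ∀ r ∈ Icc (0 : ℝ) R, HasDerivAt
        (fun r : ℝ => normSq (K ((r : ℂ) * e)) * ((1 - r) ^ 8 / (1 + r) ^ 4))
        ((2 * ((starRingEnd ℂ) (K ((r : ℂ) * e)) * (e * deriv K ((r : ℂ) * e))).re)
          * ((1 - r) ^ 8 / (1 + r) ^ 4)
          + normSq (K ((r : ℂ) * e)) *
            ((-(8 * (1 - r) ^ 7) * (1 + r) ^ 4 - (1 - r) ^ 8 * (4 * (1 + r) ^ 3)) /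
              ((1 + r) ^ 4) ^ 2)) r := by
      intro r hr
      have hr1 : (1 + r) ^ 4 ≠ 0 := by
        apply pow_ne_zero; linarith [hr.1]
      have a1 : HasDerivAt (fun r : ℝ => (1 + r) ^ 4) (4 * (1 + r) ^ 3) r := by
        have := ((hasDerivAt_id r).const_add 1).fun_pow 4
        simpa using this
      have a2 : HasDerivAt (fun r : ℝ => (1 - r) ^ 8) (-(8 * (1 - r) ^ 7)) r := by
        have := ((hasDerivAt_id r).const_sub 1).fun_pow 8
        simpa using this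
      exact (hder r hr).mul (a2.div a1 hr1)
    apply antitoneOn_of_deriv_nonpos (convex_Icc 0 R)
    · intro r hr; exact (hd r hr).continuousAt.continuousWithinAt
    · intro r hr
      exact (hd r (interior_subset hr)).differentiableAt.differentiableWithinAt
    · intro r hr
      have hr' : r ∈ Icc (0 : ℝ) R := interior_subset hr
      rw [(hd r hr').deriv]
      have hpos : 0 < 1 - r := by linarith [hr'.2]
      have hpos2 : 0 < 1 + r := by linarith [hr'.1]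
      have h1 := hineq r hr'
      set N := normSq (K ((r : ℂ) * e))
      set D := 2 * ((starRingEnd ℂ) (K ((r : ℂ) * e)) * (e * deriv K ((r : ℂ) * e))).re
      have : D * ((1 - r) ^ 8 / (1 + r) ^ 4) + N *
            ((-(8 * (1 - r) ^ 7) * (1 + r) ^ 4 - (1 - r) ^ 8 * (4 * (1 + r) ^ 3)) /
              ((1 + r) ^ 4) ^ 2)
          = -((1 - r) ^ 7 / (1 + r) ^ 5 * (N * (12 + 4 * r) - (1 - r ^ 2) * D)) := by
        field_simp; ring
      rw [this, neg_nonpos]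
      apply mul_nonneg (by positivity)
      linarith
  have hfin := hmono ⟨le_refl 0, hR0⟩ ⟨hR0, le_refl R⟩ hR0
  simp only [ofReal_zero, zero_mul, add_zero, one_pow, sub_zero, div_one, mul_one] at hfin
  rw [← hze] at hfin
  have hR1 : 0 < 1 - R := by linarith
  have hR2 : 0 < 1 + R := by linarith
  rw [Complex.normSq_eq_norm_sq, Complex.normSq_eq_norm_sq] at hfin
  -- take square roots
  have h5 : ‖K z‖ ^ 2 ≤ (‖K 0‖ * ((1 + R) ^ 2 / (1 - R) ^ 4)) ^ 2 := by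
    have : (‖K 0‖ * ((1 + R) ^ 2 / (1 - R) ^ 4)) ^ 2
        = ‖K 0‖ ^ 2 * ((1 + R) ^ 4 / (1 - R) ^ 8) := by
      field_simp
    rw [this]
    calc ‖K z‖ ^ 2 = (‖K z‖ ^ 2 * ((1 - R) ^ 8 / (1 + R) ^ 4)) * ((1 + R) ^ 4 / (1 - R) ^ 8) := by
          field_simp
      _ ≤ ‖K 0‖ ^ 2 * ((1 + R) ^ 4 / (1 - R) ^ 8) := by
          gcongr
  exact le_of_sq_le_sq h5 (by positivity)
where
  le_of_sq_le_sq {a b : ℝ} (h : a ^ 2 ≤ b ^ 2) (hb : 0 ≤ b) : a ≤ b := by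
    nlinarith [abs_le_of_sq_le_sq h hb, le_abs_self a]

/-- Covering theorem for discs of radius `R ≤ 1`. -/
theorem covering_radius {h g : ℂ → ℂ} (hd : DifferentiableOn ℂ h (ball 0 1))
    (gd : DifferentiableOn ℂ g (ball 0 1)) (h0 : h 0 = 0) (g0 : g 0 = 0)
    (hs : ∀ z : ℂ, ‖z‖ < 1 → (1 - ‖z‖) ^ 2 / (1 + ‖z‖) ^ 4 ≤ ‖deriv h z‖ - ‖deriv g z‖)
    {R : ℝ} (hR0 : 0 < R) (hR : R ≤ 1) :
    ball (0 : ℂ) (Phi R) ⊆ (fun z => h z + (starRingEnd ℂ) (g z)) '' ball (0 : ℂ) R := by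
  intro w hw
  by_contra hnot
  set f : ℂ → ℂ := fun z => h z + (starRingEnd ℂ) (g z) with hf
  have hne : ∀ z : ℂ, ‖z‖ < R → f z ≠ w := by
    intro z hz h'
    exact hnot ⟨z, by simpa using hz, h'⟩
  have hw6 : ‖w‖ < Phi R := by simpa using hw
  have hPR : 0 < Phi R := lt_of_le_of_lt (norm_nonneg w) hw6
  have hq1 : ‖w‖ / Phi R < 1 := by rw [div_lt_one hPR]; exact hw6
  have hq0 : 0 ≤ ‖w‖ / Phi R := by positivity
  set κ : ℝ := (‖w‖ / Phi R + 1) / 2 with hκ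
  have hκ1 : κ < 1 := by rw [hκ]; linarith
  have hκ0 : 0 < κ := by rw [hκ]; linarith
  have hκw : ‖w‖ < κ * Phi R := by
    have e : ‖w‖ / Phi R * Phi R = ‖w‖ := by field_simp
    rw [hκ]; nlinarith
  -- choice of r0
  obtain ⟨r0, hr0, hr01⟩ : ∃ r0 : ℝ, ‖w‖ < κ * Phi r0 ∧ r0 ∈ Ioo (0 : ℝ) R := by
    have hc : ContinuousAt (fun r => κ * Phi r) R :=
      ((Phi_hasDerivAt hR0.le).continuousAt).const_mul κ
    have h1 : ∀ᶠ r in 𝓝 R, ‖w‖ < κ * Phi r := hc.eventually (lt_mem_nhds hκw)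
    have h2 : ∀ᶠ r in 𝓝[<] R, ‖w‖ < κ * Phi r := nhdsWithin_le_nhds h1
    have h3 : ∀ᶠ r in 𝓝[<] R, r ∈ Ioo (0 : ℝ) R := Ioo_mem_nhdsLT hR0
    exact (h2.and h3).exists
  have hr1 : r0 < 1 := lt_of_lt_of_le hr01.2 hR
  -- continuity
  have hcontf : ContinuousOn f (ball 0 1) :=
    hd.continuousOn.add (Complex.continuous_conj.comp_continuousOn gd.continuousOn)
  have hsub : closedBall (0 : ℂ) r0 ⊆ ball 0 1 := closedBall_subset_ball hr1
  have hcontF : ContinuousOn (fun z => ‖f z - w‖ + κ * Phi ‖z‖) (closedBall 0 r0) := by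
    apply ContinuousOn.add
    · exact ((hcontf.mono hsub).sub continuousOn_const).norm
    · apply ContinuousOn.mul continuousOn_const
      intro z _
      exact ((Phi_hasDerivAt (norm_nonneg z)).continuousAt.comp
        continuous_norm.continuousAt).continuousWithinAt
  obtain ⟨z, hzmem, hzmin⟩ := (isCompact_closedBall (0 : ℂ) r0).exists_isMinOn
    ⟨0, by simp [hr01.1.le]⟩ hcontF
  have hz0 : ‖f z - w‖ + κ * Phi ‖z‖ ≤ ‖w‖ := by
    have h1 := hzmin (show (0 : ℂ) ∈ closedBall (0 : ℂ) r0 by simp [hr01.1.le])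
    simp only [mem_ofPred_eq, norm_zero, Phi_zero, mul_zero, add_zero] at h1
    have h2 : f 0 = 0 := by simp [hf, h0, g0]
    rw [h2, zero_sub, norm_neg] at h1
    exact h1
  have hzr : ‖z‖ ≤ r0 := by simpa using hzmem
  have hzlt : ‖z‖ < r0 := by
    rcases hzr.lt_or_eq with h' | h'
    · exact h'
    · exfalso
      rw [h'] at hz0
      have := norm_nonneg (f z - w)
      linarith
  have hz1 : ‖z‖ < 1 := by linarith [hr01.2]
  have hzR : ‖z‖ < R := by linarith [hr01.2]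
  have hzb : z ∈ ball (0 : ℂ) 1 := by simpa using hz1
  -- direction of descent
  set A := deriv h z with hA
  set B := deriv g z with hB
  set m : ℝ := (1 - ‖z‖) ^ 2 / (1 + ‖z‖) ^ 4 with hm
  have hm0 : 0 < m := by
    rw [hm]; have : 0 < 1 - ‖z‖ := by linarith
    have : 0 < 1 + ‖z‖ := by linarith [norm_nonneg z]
    positivity
  have hmAB : m ≤ ‖A‖ - ‖B‖ := hs z hz1
  set N : ℝ := ‖f z - w‖ with hN
  have hN0 : 0 < N := norm_pos_iff.mpr (sub_ne_zero.mpr (hne z hzR))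
  set E : ℂ := (f z - w) / N with hE
  have hNc : (N : ℂ) ≠ 0 := by exact_mod_cast hN0.ne'
  have hE1 : ‖E‖ = 1 := by
    rw [hE, norm_div, Complex.norm_real, Real.norm_eq_abs, abs_of_pos hN0, ← hN]
    exact div_self hN0.ne'
  set J : ℝ := ‖A‖ ^ 2 - ‖B‖ ^ 2 with hJ
  have hJ0 : 0 < J := by rw [hJ]; nlinarith [norm_nonneg B, norm_nonneg A]
  have hJc : (J : ℂ) = A * (starRingEnd ℂ) A - B * (starRingEnd ℂ) B := by
    simp only [Complex.mul_conj, hJ, Complex.normSq_eq_norm_sq]; push_cast; ring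
  have hJ0c : (J : ℂ) ≠ 0 := by exact_mod_cast hJ0.ne'
  set v : ℂ := -((starRingEnd ℂ) A * E - (starRingEnd ℂ) B * (starRingEnd ℂ) E) / J with hv
  have hAv : A * v + (starRingEnd ℂ) (B * v) = -E := by
    rw [hv]
    simp only [map_mul, map_div₀, map_neg, map_sub, Complex.conj_conj, Complex.conj_ofReal]
    field_simp
    rw [hJc]; ring
  have hvn : ‖v‖ * m ≤ 1 := by
    have h1 : ‖v‖ ≤ (‖A‖ + ‖B‖) / J := by
      rw [hv, norm_div, norm_neg, Complex.norm_real, Real.norm_eq_abs, abs_of_pos hJ0]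
      apply div_le_div_of_nonneg_right _ hJ0.le
      calc ‖(starRingEnd ℂ) A * E - (starRingEnd ℂ) B * (starRingEnd ℂ) E‖
          ≤ ‖(starRingEnd ℂ) A * E‖ + ‖(starRingEnd ℂ) B * (starRingEnd ℂ) E‖ := norm_sub_le _ _
        _ = ‖A‖ + ‖B‖ := by
          rw [norm_mul, norm_mul, RCLike.norm_conj, RCLike.norm_conj, RCLike.norm_conj, hE1]; ring
    have h2 : (‖A‖ + ‖B‖) / J * (‖A‖ - ‖B‖) = 1 := by
      rw [hJ]; rw [hJ] at hJ0; field_simp; ring
    calc ‖v‖ * m ≤ ((‖A‖ + ‖B‖) / J) * (‖A‖ - ‖B‖) := by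
          apply mul_le_mul h1 hmAB hm0.le
          apply div_nonneg _ hJ0.le; positivity
      _ = 1 := h2
  -- expansions
  set ε : ℝ := (1 - κ) / 4 with hε
  have hε0 : 0 < ε := by rw [hε]; linarith
  have hline : HasDerivAt (fun s : ℝ => z + (s : ℂ) * v) v 0 := by
    simpa using ((Complex.ofRealCLM.hasDerivAt (x := (0 : ℝ))).mul_const v).const_add z
  have hfd : HasDerivAt (fun s : ℝ => f (z + (s : ℂ) * v)) (-E) 0 := by
    have b1 : HasDerivAt (fun s : ℝ => h (z + (s : ℂ) * v)) (A * v) 0 :=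
      HasDerivAt.comp_of_eq (0 : ℝ) (diffAt_of hd hzb).hasDerivAt hline (by simp)
    have b2 : HasDerivAt (fun s : ℝ => g (z + (s : ℂ) * v)) (B * v) 0 :=
      HasDerivAt.comp_of_eq (0 : ℝ) (diffAt_of gd hzb).hasDerivAt hline (by simp)
    have b3 : HasDerivAt (fun s : ℝ => (starRingEnd ℂ) (g (z + (s : ℂ) * v)))
        ((starRingEnd ℂ) (B * v)) 0 := by
      have := (Complex.conjCLE : ℂ ≃L[ℝ] ℂ).hasFDerivAt.comp_hasDerivAt (0 : ℝ) b2
      simpa [Function.comp_def] using this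
    rw [← hAv]
    exact b1.add b3
  have hlo : ∀ᶠ s : ℝ in 𝓝 0, ‖f (z + (s : ℂ) * v) - f z - s • (-E)‖ ≤ ε * ‖s‖ := by
    have := (hasDerivAt_iff_isLittleO.mp hfd).def hε0
    simpa using this
  have hPd : HasDerivAt (fun s : ℝ => Phi (‖z‖ + s * ‖v‖)) (m * ‖v‖) 0 := by
    have c1 : HasDerivAt (fun s : ℝ => ‖z‖ + s * ‖v‖) ‖v‖ 0 := by
      simpa using ((hasDerivAt_id (0 : ℝ)).mul_const ‖v‖).const_add ‖z‖
    exact HasDerivAt.comp_of_eq (0 : ℝ) (Phi_hasDerivAt (norm_nonneg z)) c1 (by simp)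
  have hPo : ∀ᶠ s : ℝ in 𝓝 0, ‖Phi (‖z‖ + s * ‖v‖) - Phi ‖z‖ - s • (m * ‖v‖)‖ ≤ ε * ‖s‖ := by
    have := (hasDerivAt_iff_isLittleO.mp hPd).def hε0
    simpa using this
  have hsm : ∀ᶠ s : ℝ in 𝓝 0, ‖z‖ + s * ‖v‖ < r0 := by
    have c1 : ContinuousAt (fun s : ℝ => ‖z‖ + s * ‖v‖) 0 := by fun_prop
    exact c1.eventually (gt_mem_nhds (by simpa using hzlt))
  have hsN : ∀ᶠ s : ℝ in 𝓝 0, s < N := gt_mem_nhds hN0
  have hall : ∀ᶠ s : ℝ in 𝓝[>] 0, (‖f (z + (s : ℂ) * v) - f z - s • (-E)‖ ≤ ε * ‖s‖ ∧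
      ‖Phi (‖z‖ + s * ‖v‖) - Phi ‖z‖ - s • (m * ‖v‖)‖ ≤ ε * ‖s‖ ∧ ‖z‖ + s * ‖v‖ < r0 ∧ s < N) ∧
      0 < s := by
    have d1 : ∀ᶠ s : ℝ in 𝓝[>] 0, (‖f (z + (s : ℂ) * v) - f z - s • (-E)‖ ≤ ε * ‖s‖ ∧
      ‖Phi (‖z‖ + s * ‖v‖) - Phi ‖z‖ - s • (m * ‖v‖)‖ ≤ ε * ‖s‖ ∧ ‖z‖ + s * ‖v‖ < r0 ∧ s < N) :=
      nhdsWithin_le_nhds (hlo.and (hPo.and (hsm.and hsN)))
    exact d1.and self_mem_nhdsWithin
  obtain ⟨s, ⟨hs1, hs2, hs3, hs4⟩, hs0⟩ := hall.exists
  rw [Real.norm_eq_abs s, abs_of_pos hs0] at hs1 hs2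
  have hnz : ‖z + (s : ℂ) * v‖ ≤ ‖z‖ + s * ‖v‖ := by
    refine (norm_add_le _ _).trans ?_
    rw [norm_mul, Complex.norm_real, Real.norm_eq_abs, abs_of_pos hs0]
  have hmin := hzmin (show z + (s : ℂ) * v ∈ closedBall (0 : ℂ) r0 by
    simpa using (hnz.trans hs3.le))
  simp only [mem_ofPred_eq] at hmin
  -- upper bound for the new value
  have u1 : ‖f (z + (s : ℂ) * v) - w‖ ≤ (N - s) + ε * s := by
    have e1 : f (z + (s : ℂ) * v) - w
        = (f (z + (s : ℂ) * v) - f z - s • (-E)) + ((N - s : ℝ) : ℂ) * E := by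
      have : f z - w = (N : ℂ) * E := by rw [hE]; field_simp
      simp only [Complex.real_smul]
      push_cast
      linear_combination this
    rw [e1]
    refine (norm_add_le _ _).trans ?_
    rw [norm_mul, hE1, mul_one, Complex.norm_real, Real.norm_eq_abs,
      abs_of_pos (show (0 : ℝ) < N - s by linarith)]
    linarith
  have u2 : Phi ‖z + (s : ℂ) * v‖ ≤ Phi ‖z‖ + s + ε * s := by
    have e1 : Phi ‖z + (s : ℂ) * v‖ ≤ Phi (‖z‖ + s * ‖v‖) :=
      Phi_mono (norm_nonneg _) hnz (by linarith [hr01.2])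
    have e2 := (abs_le.mp (by simpa [Real.norm_eq_abs] using hs2)).2
    have e3 : s * (m * ‖v‖) ≤ s := by nlinarith
    linarith
  have u3 : κ * Phi ‖z + (s : ℂ) * v‖ ≤ κ * (Phi ‖z‖ + s + ε * s) :=
    mul_le_mul_of_nonneg_left u2 hκ0.le
  have u4 : ε * (1 + κ) < 1 - κ := by rw [hε]; nlinarith
  nlinarith


/-- Upper distortion. -/
theorem distortion_upper (H : A2Bound) {h g : ℂ → ℂ} (hu : IsHU h g) (h1 : deriv h 0 = 1)
    (g1 : deriv g 0 = 0) {z : ℂ} (hz : ‖z‖ < 1) :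
    ‖deriv h z‖ + ‖deriv g z‖ ≤ (1 + ‖z‖) ^ 2 / (1 - ‖z‖) ^ 4 := by
  -- choose u with |h' + u g'| = |h'| + |g'|
  obtain ⟨u, hu1, huz⟩ : ∃ u : ℂ, ‖u‖ = 1 ∧
      ‖deriv h z + u * deriv g z‖ = ‖deriv h z‖ + ‖deriv g z‖ := by
    have hlt := hu.sp z (by simpa using hz)
    set X := deriv h z
    set Y := deriv g z
    by_cases hY : Y = 0
    · exact ⟨1, by simp, by simp [hY]⟩
    · have hX : X ≠ 0 := by
        intro h'; rw [h'] at hlt; simp at hlt; linarith [norm_nonneg Y]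
      have hXn : (‖X‖ : ℂ) ≠ 0 := by simpa using hX
      have hYn : (‖Y‖ : ℂ) ≠ 0 := by simpa using hY
      refine ⟨(X * ‖Y‖) / (‖X‖ * Y), ?_, ?_⟩
      · rw [norm_div, norm_mul, norm_mul]
        simp only [Complex.norm_real, norm_norm]
        rw [div_self]
        exact mul_ne_zero (norm_ne_zero_iff.mpr hX) (norm_ne_zero_iff.mpr hY)
      · have : X + (X * ‖Y‖) / (‖X‖ * Y) * Y = X / ‖X‖ * ((‖X‖ + ‖Y‖ : ℝ) : ℂ) := by
          push_cast; field_simp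
        rw [this, norm_mul, norm_div, Complex.norm_real, Complex.norm_real, norm_norm,
          div_self (norm_ne_zero_iff.mpr hX), one_mul, Real.norm_eq_abs,
          abs_of_nonneg (by positivity)]
  have hK : DifferentiableOn ℂ (fun z => deriv h z + u * deriv g z) (ball 0 1) :=
    (hu.hd.deriv isOpen_ball).add ((hu.gd.deriv isOpen_ball).const_mul u)
  have hb : ∀ a : ℂ, ‖a‖ < 1 → ‖((1 : ℂ) - a * (starRingEnd ℂ) a) *
      deriv (fun z => deriv h z + u * deriv g z) a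
      - 2 * (starRingEnd ℂ) a * (deriv h a + u * deriv g a)‖
      ≤ 6 * ‖deriv h a + u * deriv g a‖ := by
    intro a ha
    have hd : deriv (fun z => deriv h z + u * deriv g z) a
        = deriv (deriv h) a + u * deriv (deriv g) a := by
      have a1 := (diffAt_of (hu.hd.deriv isOpen_ball) (show a ∈ ball (0 : ℂ) 1 by simpa using ha))
      have a2 := (diffAt_of (hu.gd.deriv isOpen_ball) (show a ∈ ball (0 : ℂ) 1 by simpa using ha))
      exact (a1.hasDerivAt.add (a2.hasDerivAt.const_mul u)).deriv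
    rw [hd]
    exact a2_everywhere H hu hu1 ha
  have := radial_growth_upper hK hb hz
  simp only [h1, g1, mul_zero, add_zero, norm_one, one_mul] at this
  rw [huz] at this
  exact this

/-- Upper growth. -/
theorem growth_upper {h g : ℂ → ℂ} (hd : DifferentiableOn ℂ h (ball 0 1))
    (gd : DifferentiableOn ℂ g (ball 0 1)) (h0 : h 0 = 0) (g0 : g 0 = 0)
    (hs : ∀ z : ℂ, ‖z‖ < 1 → ‖deriv h z‖ + ‖deriv g z‖ ≤ (1 + ‖z‖) ^ 2 / (1 - ‖z‖) ^ 4)
    {z : ℂ} (hz : ‖z‖ < 1) :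
    ‖h z + (starRingEnd ℂ) (g z)‖ ≤ (((1 + ‖z‖) / (1 - ‖z‖)) ^ 3 - 1) / 6 := by
  obtain ⟨e, he, hze⟩ : ∃ e : ℂ, ‖e‖ = 1 ∧ z = (‖z‖ : ℂ) * e := by
    by_cases h0 : z = 0
    · exact ⟨1, by simp, by simp [h0]⟩
    · refine ⟨z / ‖z‖, ?_, ?_⟩
      · rw [norm_div]; simp [h0]
      · have : (‖z‖ : ℂ) ≠ 0 := by simpa using h0
        field_simp
  set R : ℝ := ‖z‖ with hR
  have hR0 : 0 ≤ R := norm_nonneg z
  have hnorm : ∀ r : ℝ, r ∈ Icc (0 : ℝ) R → ‖(r : ℂ) * e‖ = r := by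
    intro r hr
    rw [norm_mul, he, mul_one, Complex.norm_real, Real.norm_eq_abs, abs_of_nonneg hr.1]
  have hmem : ∀ r : ℝ, r ∈ Icc (0 : ℝ) R → ‖(r : ℂ) * e‖ < 1 := by
    intro r hr
    rw [hnorm r hr]; linarith [hr.2]
  have hline : ∀ r : ℝ, HasDerivAt (fun r : ℝ => ((r : ℂ) * e)) e r := by
    intro r
    simpa using (Complex.ofRealCLM.hasDerivAt (x := r)).mul_const e
  have hfd : ∀ r ∈ Icc (0 : ℝ) R, HasDerivAt
      (fun r : ℝ => h ((r : ℂ) * e) + (starRingEnd ℂ) (g ((r : ℂ) * e)))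
      (deriv h ((r : ℂ) * e) * e + (starRingEnd ℂ) (deriv g ((r : ℂ) * e) * e)) r := by
    intro r hr
    have hm : (r : ℂ) * e ∈ ball (0 : ℂ) 1 := by simpa using hmem r hr
    have b1 : HasDerivAt (fun s : ℝ => h ((s : ℂ) * e)) (deriv h ((r : ℂ) * e) * e) r :=
      HasDerivAt.comp_of_eq r (diffAt_of hd hm).hasDerivAt (hline r) rfl
    have b2 : HasDerivAt (fun s : ℝ => g ((s : ℂ) * e)) (deriv g ((r : ℂ) * e) * e) r :=
      HasDerivAt.comp_of_eq r (diffAt_of gd hm).hasDerivAt (hline r) rfl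
    have b3 : HasDerivAt (fun s : ℝ => (starRingEnd ℂ) (g ((s : ℂ) * e)))
        ((starRingEnd ℂ) (deriv g ((r : ℂ) * e) * e)) r := by
      have := (Complex.conjCLE : ℂ ≃L[ℝ] ℂ).hasFDerivAt.comp_hasDerivAt r b2
      simpa [Function.comp_def] using this
    exact b1.add b3
  have hBd : ∀ r ∈ Icc (0 : ℝ) R, HasDerivAt (fun r : ℝ => (((1 + r) / (1 - r)) ^ 3 - 1) / 6)
      ((1 + r) ^ 2 / (1 - r) ^ 4) r := by
    intro r hr
    have h1 : (1 - r) ≠ 0 := by linarith [hr.2]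
    have a1 : HasDerivAt (fun r : ℝ => 1 - r) (-1) r := by
      simpa using (hasDerivAt_id r).const_sub 1
    have a2 : HasDerivAt (fun r : ℝ => 1 + r) 1 r := by
      simpa using (hasDerivAt_id r).const_add 1
    have a3 := ((a2.fun_div a1 h1).fun_pow 3).sub_const 1 |>.div_const 6
    refine a3.congr_deriv ?_
    have e : ((1 + r) / (1 - r)) ^ (3 - 1) = (1 + r) ^ 2 / (1 - r) ^ 2 := by
      rw [show 3 - 1 = 2 from rfl, div_pow]
    rw [e]
    push_cast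
    field_simp
    ring
  have key := image_norm_le_of_norm_deriv_right_le_deriv_boundary' (a := (0 : ℝ)) (b := R)
    (f := fun r : ℝ => h ((r : ℂ) * e) + (starRingEnd ℂ) (g ((r : ℂ) * e)))
    (f' := fun r : ℝ => deriv h ((r : ℂ) * e) * e + (starRingEnd ℂ) (deriv g ((r : ℂ) * e) * e))
    (B := fun r : ℝ => (((1 + r) / (1 - r)) ^ 3 - 1) / 6)
    (B' := fun r : ℝ => (1 + r) ^ 2 / (1 - r) ^ 4)
    (fun r hr => (hfd r hr).continuousAt.continuousWithinAt)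
    (fun r hr => (hfd r ⟨hr.1, hr.2.le⟩).hasDerivWithinAt)
    (by simp [h0, g0])
    (fun r hr => (hBd r hr).continuousAt.continuousWithinAt)
    (fun r hr => (hBd r ⟨hr.1, hr.2.le⟩).hasDerivWithinAt)
    (by
      intro r hr
      have hr' : r ∈ Icc (0 : ℝ) R := ⟨hr.1, hr.2.le⟩
      have h3 := hs _ (hmem r hr')
      rw [hnorm r hr'] at h3
      refine le_trans ?_ h3
      refine (norm_add_le _ _).trans (le_of_eq ?_)
      rw [RCLike.norm_conj, norm_mul, norm_mul, he, mul_one, mul_one])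
  have := key (right_mem_Icc.mpr hR0)
  simpa [← hze] using this

/-- Lower growth. -/
theorem growth_lower {h g : ℂ → ℂ} (hd : DifferentiableOn ℂ h (ball 0 1))
    (gd : DifferentiableOn ℂ g (ball 0 1)) (h0 : h 0 = 0) (g0 : g 0 = 0)
    (hinj : InjOn (fun z => h z + (starRingEnd ℂ) (g z)) (ball (0 : ℂ) 1))
    (hs : ∀ z : ℂ, ‖z‖ < 1 → (1 - ‖z‖) ^ 2 / (1 + ‖z‖) ^ 4 ≤ ‖deriv h z‖ - ‖deriv g z‖)
    {z : ℂ} (hz : ‖z‖ < 1) :
    (1 - ((1 - ‖z‖) / (1 + ‖z‖)) ^ 3) / 6 ≤ ‖h z + (starRingEnd ℂ) (g z)‖ := by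
  by_contra hcon
  push Not at hcon
  have hz0 : 0 < ‖z‖ := by
    rcases (norm_nonneg z).eq_or_lt with h' | h'
    · rw [← h'] at hcon
      norm_num at hcon
      exact absurd hcon (not_lt.mpr (norm_nonneg _))
    · exact h'
  have h1 : ‖h z + (starRingEnd ℂ) (g z)‖ < Phi ‖z‖ := hcon
  have hc : ContinuousAt Phi ‖z‖ := (Phi_hasDerivAt hz0.le).continuousAt
  have h2 : ∀ᶠ r in 𝓝[<] ‖z‖, ‖h z + (starRingEnd ℂ) (g z)‖ < Phi r :=
    nhdsWithin_le_nhds (hc.eventually (lt_mem_nhds h1))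
  have h3 : ∀ᶠ r in 𝓝[<] ‖z‖, r ∈ Ioo (0 : ℝ) ‖z‖ := Ioo_mem_nhdsLT hz0
  obtain ⟨r, hr1, hr2⟩ := (h2.and h3).exists
  obtain ⟨v, hv, hvw⟩ := covering_radius hd gd h0 g0 hs hr2.1 (by linarith [hr2.2])
    (show h z + (starRingEnd ℂ) (g z) ∈ ball (0 : ℂ) (Phi r) by simpa using hr1)
  have hv' : ‖v‖ < r := by simpa using hv
  have hvz : v = z := hinj (show v ∈ ball (0 : ℂ) 1 by
    have := hr2.2
    simpa using (by linarith : ‖v‖ < 1)) (by simpa using hz) hvw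
  rw [hvz] at hv'
  linarith [hr2.2]

end Pool.Agent.Lib.MP4cd976.Own
end

section
/-!
# MP_4cd976_an, own theorem: the main statements for the class `S_H^0`
-/
set_option autoImplicit false

open Complex Metric Set Filter Topology

namespace Pool.Agent.Lib.MP4cd976.Own

open Pool.Agent.Lib.MP4cd976.E

theorem a2Norm : A2Norm := D.a2Norm_of_niceBound (D.niceBound_of_apx K.tiedBound D.apx)

theorem a2Bound : A2Bound := a2Bound_of_norm a2Norm

theorem SH0.isHU {h g : ℂ → ℂ} (H : SH0 h g) : IsHU h g := by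
  refine ⟨H.hd, H.gd, ?_, H.inj⟩
  apply jacobian_pos H.hd H.gd (by rw [H.h1]; exact one_ne_zero) H.g1 _ H.inj
  intro z hz
  have := H.jac z hz
  exact le_of_sq_le_sq (by linarith) (norm_nonneg _)
where
  le_of_sq_le_sq {a b : ℝ} (h : a ^ 2 ≤ b ^ 2) (hb : 0 ≤ b) : a ≤ b := by
    nlinarith [abs_le_of_sq_le_sq h hb, le_abs_self a]

theorem SH0.jac_pos {h g : ℂ → ℂ} (H : SH0 h g) {z : ℂ} (hz : z ∈ ball (0 : ℂ) 1) :
    0 < ‖deriv h z‖ ^ 2 - ‖deriv g z‖ ^ 2 := by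
  have := H.isHU.sp z hz
  nlinarith [norm_nonneg (deriv g z)]

theorem SH0.second_coeff {h g : ℂ → ℂ} (H : SH0 h g) :
    ‖deriv (deriv h) 0‖ + ‖deriv (deriv g) 0‖ ≤ 6 := by
  set X := deriv (deriv h) 0
  set Y := deriv (deriv g) 0
  have key : ∀ u : ℂ, ‖u‖ = 1 → ‖X + u * Y‖ ≤ 6 := fun u hu =>
    a2Norm h g H.isHU H.h0 H.h1 H.g0 H.g1 u hu
  by_cases hY : Y = 0
  · have := key 1 (by simp)
    simpa [hY] using this
  · by_cases hX : X = 0
    · have := key 1 (by simp)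
      simpa [hX] using this
    · have hXn : (‖X‖ : ℂ) ≠ 0 := by simpa using hX
      have hYn : (‖Y‖ : ℂ) ≠ 0 := by simpa using hY
      have h1 : ‖(X * ‖Y‖) / (‖X‖ * Y)‖ = 1 := by
        rw [norm_div, norm_mul, norm_mul]
        simp only [Complex.norm_real, norm_norm]
        rw [div_self]
        exact mul_ne_zero (norm_ne_zero_iff.mpr hX) (norm_ne_zero_iff.mpr hY)
      have h2 := key _ h1
      have : X + (X * ‖Y‖) / (‖X‖ * Y) * Y = X / ‖X‖ * ((‖X‖ + ‖Y‖ : ℝ) : ℂ) := by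
        push_cast; field_simp
      rw [this, norm_mul, norm_div, Complex.norm_real, Complex.norm_real, norm_norm,
          div_self (norm_ne_zero_iff.mpr hX), one_mul, Real.norm_eq_abs,
          abs_of_nonneg (by positivity)] at h2
      exact h2

theorem SH0.lower {h g : ℂ → ℂ} (H : SH0 h g) {z : ℂ} (hz : ‖z‖ < 1) :
    (1 - ‖z‖) ^ 2 / (1 + ‖z‖) ^ 4 ≤ ‖deriv h z‖ - ‖deriv g z‖ :=
  distortion a2Bound H.isHU H.h1 H.g1 hz

theorem SH0.upper {h g : ℂ → ℂ} (H : SH0 h g) {z : ℂ} (hz : ‖z‖ < 1) :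
    ‖deriv h z‖ + ‖deriv g z‖ ≤ (1 + ‖z‖) ^ 2 / (1 - ‖z‖) ^ 4 :=
  distortion_upper a2Bound H.isHU H.h1 H.g1 hz

theorem SH0.covers {h g : ℂ → ℂ} (H : SH0 h g) {R : ℝ} (hR0 : 0 < R) (hR : R ≤ 1) :
    ball (0 : ℂ) ((1 - ((1 - R) / (1 + R)) ^ 3) / 6) ⊆
      (fun z => h z + (starRingEnd ℂ) (g z)) '' ball (0 : ℂ) R :=
  covering_radius H.hd H.gd H.h0 H.g0 (fun _ hz => H.lower hz) hR0 hR

theorem SH0.growth {h g : ℂ → ℂ} (H : SH0 h g) {z : ℂ} (hz : ‖z‖ < 1) :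
    (1 - ((1 - ‖z‖) / (1 + ‖z‖)) ^ 3) / 6 ≤ ‖h z + (starRingEnd ℂ) (g z)‖ ∧
      ‖h z + (starRingEnd ℂ) (g z)‖ ≤ (((1 + ‖z‖) / (1 - ‖z‖)) ^ 3 - 1) / 6 :=
  ⟨growth_lower H.hd H.gd H.h0 H.g0 H.inj (fun _ hz => H.lower hz) hz,
    growth_upper H.hd H.gd H.h0 H.g0 (fun _ hz => H.upper hz) hz⟩

theorem koebe_SH0 : SH0 Koebe.H Koebe.G where
  hd := fun _ hz => (Koebe.hasDerivAt_H hz).differentiableAt.differentiableWithinAt
  gd := fun _ hz => (Koebe.hasDerivAt_G hz).differentiableAt.differentiableWithinAt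
  h0 := Koebe.H_zero
  h1 := Koebe.deriv_H_zero
  g0 := Koebe.G_zero
  g1 := Koebe.deriv_G_zero
  jac := fun z hz => by
    have := Koebe.sense hz
    nlinarith [norm_nonneg (deriv Koebe.G z)]
  inj := Koebe.injOn_K

theorem koebe_omits {R : ℝ} (hR0 : 0 < R) (hR : R ≤ 1) :
    (((-((1 - ((1 - R) / (1 + R)) ^ 3) / 6) : ℝ)) : ℂ) ∉
      (fun z => Koebe.H z + (starRingEnd ℂ) (Koebe.G z)) '' ball (0 : ℂ) R := by
  rintro ⟨z, hz, hzw⟩
  have hzR : ‖z‖ < R := by simpa using hz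
  have hz1 : z ∈ ball (0 : ℂ) 1 := by simpa using (lt_of_lt_of_le hzR hR)
  rcases hR.lt_or_eq with h' | h'
  · have e := Koebe.K_real (t := -R) (by linarith) (by linarith)
    have e2 : ((((1 + -R) / (1 - -R)) ^ 3 - 1) / 6 : ℝ)
        = (-((1 - ((1 - R) / (1 + R)) ^ 3) / 6) : ℝ) := by
      rw [show (1 + -R) = 1 - R by ring, show (1 - -R) = 1 + R by ring]
      ring
    rw [e2] at e
    have e3 : z = ((-R : ℝ) : ℂ) :=
      Koebe.injOn_K hz1 (Koebe.real_mem (by linarith) (by linarith)) (hzw.trans e.symm)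
    rw [e3, Complex.norm_real, Real.norm_eq_abs, abs_neg, abs_of_pos hR0] at hzR
    exact lt_irrefl _ hzR
  · subst h'
    apply Koebe.omits hz1
    rw [show Koebe.H z + (starRingEnd ℂ) (Koebe.G z) = _ from hzw]
    norm_num

theorem koebe_sharp {r : ℝ} (hr0 : 0 ≤ r) (hr : r < 1) :
    ‖deriv Koebe.H ((-r : ℝ) : ℂ)‖ - ‖deriv Koebe.G ((-r : ℝ) : ℂ)‖ = (1 - r) ^ 2 / (1 + r) ^ 4 ∧
    ‖deriv Koebe.H (r : ℂ)‖ + ‖deriv Koebe.G (r : ℂ)‖ = (1 + r) ^ 2 / (1 - r) ^ 4 ∧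
    ‖Koebe.H ((-r : ℝ) : ℂ) + (starRingEnd ℂ) (Koebe.G ((-r : ℝ) : ℂ))‖
      = (1 - ((1 - r) / (1 + r)) ^ 3) / 6 ∧
    ‖Koebe.H (r : ℂ) + (starRingEnd ℂ) (Koebe.G (r : ℂ))‖
      = (((1 + r) / (1 - r)) ^ 3 - 1) / 6 := by
  have p1 : 0 < 1 - r := by linarith
  have p2 : 0 < 1 + r := by linarith
  refine ⟨?_, ?_, ?_, ?_⟩
  · rw [Koebe.norm_deriv_H_real (by linarith) (by linarith),
      Koebe.norm_deriv_G_real (by linarith) (by linarith), abs_neg, abs_of_nonneg hr0,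
      show (1 + -r) = 1 - r by ring, show (1 - -r) = 1 + r by ring]
    field_simp
  · rw [Koebe.norm_deriv_H_real (by linarith) (by linarith),
      Koebe.norm_deriv_G_real (by linarith) (by linarith), abs_of_nonneg hr0]
    field_simp
  · rw [Koebe.K_real (by linarith) (by linarith), Complex.norm_real, Real.norm_eq_abs,
      show (1 + -r) = 1 - r by ring, show (1 - -r) = 1 + r by ring]
    have h1 : ((1 - r) / (1 + r)) ^ 3 ≤ 1 := by
      apply pow_le_one₀ (by positivity)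
      rw [div_le_one p2]; linarith
    rw [abs_of_nonpos (by linarith)]
    ring
  · rw [Koebe.K_real (by linarith) (by linarith), Complex.norm_real, Real.norm_eq_abs]
    have h1 : 1 ≤ ((1 + r) / (1 - r)) ^ 3 := by
      apply one_le_pow₀
      rw [le_div_iff₀ p1]; linarith
    rw [abs_of_nonneg (by linarith)]

end Pool.Agent.Lib.MP4cd976.Own
end
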